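import Pool.Agent.T2H62.MQ.A

/-!
# The trace inequality with two levels

A zero on the critical line of multiplicity `m ≤ r` counts `2 r m - r²`, one of multiplicity `m > r`
counts `2 (r + 1) m - (r + 1)²`, a zero off the line `2 (r + 1) m - (r + 1)² / 2`: each of them is at
least `(2 r + 1) m - r (r + 1)`. Adapted from `Pool.Agent.H385R2.TraceW` and `Pool.Agent.H385R2.PerChiD`.
-/

open Complex Filter Topology Set MeasureTheory
open scoped BigOperators ComplexConjugate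
open H370 (zset mult NN Nd Ns)

set_option maxHeartbeats 4000000

namespace Pool.Agent.T2H62.MQ

open H385
open H385.PerChi (zz_spec zz_refl zz_inj zz_re zz_im phiw_even phiw_zero Rw_cont aw aw_zz log_bd)
open H385.PerChiD (zset_refl mult_refl)

theorem trace_wt (θ : ℝ) (hθ0 : 0 ≤ θ) (hθ2 : θ ≤ 2) {E : Type*} [NormedAddCommGroup E] [InnerProductSpace ℂ E]
    (φ : ℂ → ℂ) (k : ℂ → E) (hk : ∀ z w, inner ℂ (k z) (k w) = φ (w - (starRingEnd ℂ) z))
    (hev : ∀ z, φ (-z) = φ z) (h0 : φ 0 = 1)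
    (Z : Finset ℂ) (hZ : ∀ z ∈ Z, (starRingEnd ℂ) z ∈ Z) (a : ℂ → ℂ)
    (hac : ∀ z ∈ Z, a ((starRingEnd ℂ) z) = (starRingEnd ℂ) (a z))
    (S : Finset ℂ) (hSZ : S ⊆ Z) (hSr : ∀ z ∈ S, z.im = 0 ∧ 0 ≤ (a z).re) :
    4 * (∑ z ∈ Z, a z).re - 2 * (2 - θ) * (∑ z ∈ S, (a z).re) - θ ^ 2 * (S.card : ℝ)
      - 4 * ((((Z \ S).filter (fun z => z.im = 0)).card : ℝ)
          + ((Z.filter (fun z => 0 < z.im)).card : ℝ))
      ≤ (∑ z ∈ Z, ∑ w ∈ Z, a z * a w * (φ (z - w)) ^ 2).re := by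
  classical
  set P := Z.filter (fun z => 0 ≤ z.im) with hP
  -- conj relation
  have hcj : ∀ z, (starRingEnd ℂ) (φ z) = φ ((starRingEnd ℂ) z) := by
    intro z
    have h1 := hk 0 z
    have h2 := hk z 0
    rw [← inner_conj_symm, h1] at h2
    simp only [map_zero, sub_zero, zero_sub] at h2
    rw [h2, hev]
  -- coefficients
  set c : ℂ → ℂ := fun z => if z.im = 0 then a z / 4 else a z / 2 with hc
  have hsplit : ∀ G : ℂ → ℂ, ∑ z ∈ Z, a z * G z =
      ∑ z ∈ P, (2 * c z * G z + 2 * (starRingEnd ℂ) (c z) * G ((starRingEnd ℂ) z)) :=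
    fun G => trw_split Z hZ a hac G
  have hex : ∀ z, ∃ s : ℂ, s ^ 2 = c z := fun z => IsAlgClosed.exists_pow_nat_eq (c z) two_pos
  choose s hs using hex
  set x : ℂ → E := fun z => s z • k z + (starRingEnd ℂ) (s z) • k ((starRingEnd ℂ) z) with hx
  set b : ℂ → E := fun z => s z • k z - (starRingEnd ℂ) (s z) • k ((starRingEnd ℂ) z) with hb
  set d : ℂ → ℝ := fun z => if z ∈ S then θ else 2 with hd
  set D : ℂ → ℂ → ℝ := fun z w => if z = w then d z else 0 with hD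
  set p : ℂ → ℂ → ℂ := fun z w => (starRingEnd ℂ) (s z) * s w * φ (w - (starRingEnd ℂ) z) with hp
  set q : ℂ → ℂ → ℂ := fun z w => (starRingEnd ℂ) (s z) * (starRingEnd ℂ) (s w) *
    φ ((starRingEnd ℂ) w - (starRingEnd ℂ) z) with hq
  -- inner products
  have hA : ∀ z w, φ ((starRingEnd ℂ) w - z) = (starRingEnd ℂ) (φ (w - (starRingEnd ℂ) z)) := by
    intro z w
    rw [hcj]; simp
  have hB : ∀ z w, φ (w - z) = (starRingEnd ℂ) (φ ((starRingEnd ℂ) w - (starRingEnd ℂ) z)) := by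
    intro z w
    rw [hcj]; simp
  have hxx : ∀ z w, inner ℂ (x z) (x w) = p z w + q z w + (starRingEnd ℂ) (q z w) +
      (starRingEnd ℂ) (p z w) := by
    intro z w
    simp only [hx, hp, hq, map_mul, Complex.conj_conj, ← hA z w, ← hB z w]
    rw [inner_add_left, inner_add_right, inner_add_right]
    simp only [inner_smul_left, inner_smul_right, hk, Complex.conj_conj]
    ring
  have hxb : ∀ z w, inner ℂ (x z) (b w) = p z w - q z w + (starRingEnd ℂ) (q z w) -
      (starRingEnd ℂ) (p z w) := by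
    intro z w
    simp only [hx, hb, hp, hq, map_mul, Complex.conj_conj, ← hA z w, ← hB z w]
    rw [inner_add_left, inner_sub_right, inner_sub_right]
    simp only [inner_smul_left, inner_smul_right, hk, Complex.conj_conj]
    ring
  have hbb : ∀ z w, inner ℂ (b z) (b w) = p z w - q z w - (starRingEnd ℂ) (q z w) +
      (starRingEnd ℂ) (p z w) := by
    intro z w
    simp only [hb, hp, hq, map_mul, Complex.conj_conj, ← hA z w, ← hB z w]
    rw [inner_sub_left, inner_sub_right, inner_sub_right]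
    simp only [inner_smul_left, inner_smul_right, hk, Complex.conj_conj]
    ring
  -- real forms
  set r : ℂ → ℂ → ℝ := fun z w => 2 * (p z w).re + 2 * (q z w).re with hr
  have hxxr : ∀ z w, inner ℂ (x z) (x w) = (r z w : ℂ) := by
    intro z w
    rw [hxx]
    simp only [hr]
    apply Complex.ext
    · simp; ring
    · simp
  have hbbr : ∀ z w, inner ℂ (b z) (b w) = ((2 * (p z w).re - 2 * (q z w).re : ℝ) : ℂ) := by
    intro z w
    rw [hbb]
    apply Complex.ext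
    · simp; ring
    · simp
  have hxbr : ∀ z w, ‖inner ℂ (x z) (b w)‖ ^ 2 = 4 * ((p z w).im - (q z w).im) ^ 2 := by
    intro z w
    rw [hxb, ← Complex.normSq_eq_norm_sq, Complex.normSq_apply]
    simp only [Complex.sub_re, Complex.add_re, Complex.conj_re, Complex.conj_im, Complex.sub_im,
      Complex.add_im]
    ring
  have hpsym : ∀ z w, p w z = (starRingEnd ℂ) (p z w) := by
    intro z w
    simp only [hp, map_mul, Complex.conj_conj, ← hA z w]
    rw [← hev (z - (starRingEnd ℂ) w)]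
    have : -(z - (starRingEnd ℂ) w) = (starRingEnd ℂ) w - z := by ring
    rw [this]
    ring
  have hqsym : ∀ z w, q w z = q z w := by
    intro z w
    simp only [hq]
    rw [← hev ((starRingEnd ℂ) z - (starRingEnd ℂ) w)]
    have : -((starRingEnd ℂ) z - (starRingEnd ℂ) w) = (starRingEnd ℂ) w - (starRingEnd ℂ) z := by ring
    rw [this]
    ring
  have hxbr' : ∀ z w, ‖inner ℂ (x w) (b z)‖ ^ 2 = 4 * ((p z w).im + (q z w).im) ^ 2 := by
    intro z w
    rw [hxbr w z, hpsym, hqsym, Complex.conj_im]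
    ring
  -- trace of T^2
  have htr : (∑ z ∈ Z, ∑ w ∈ Z, a z * a w * (φ (z - w)) ^ 2).re =
      ∑ z ∈ P, ∑ w ∈ P, 8 * ((p z w ^ 2).re + (q z w ^ 2).re) := by
    have h1 : ∑ z ∈ Z, ∑ w ∈ Z, a z * a w * (φ (z - w)) ^ 2 =
        ∑ z ∈ Z, a z * ∑ w ∈ P, (2 * c w * φ (z - w) ^ 2 +
          2 * (starRingEnd ℂ) (c w) * φ (z - (starRingEnd ℂ) w) ^ 2) := by
      refine Finset.sum_congr rfl fun z _ => ?_
      rw [← hsplit (fun w => φ (z - w) ^ 2), Finset.mul_sum]
      refine Finset.sum_congr rfl fun w _ => ?_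
      ring
    rw [h1, hsplit (fun z => ∑ w ∈ P, (2 * c w * φ (z - w) ^ 2 +
          2 * (starRingEnd ℂ) (c w) * φ (z - (starRingEnd ℂ) w) ^ 2)), Complex.re_sum]
    refine Finset.sum_congr rfl fun z _ => ?_
    rw [Finset.mul_sum, Finset.mul_sum, ← Finset.sum_add_distrib, Complex.re_sum]
    refine Finset.sum_congr rfl fun w _ => ?_
    have e1 : φ (z - w) = (starRingEnd ℂ) (φ ((starRingEnd ℂ) w - (starRingEnd ℂ) z)) := by
      rw [← hB z w, ← hev]; congr 1; ring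
    have e2 : φ (z - (starRingEnd ℂ) w) = (starRingEnd ℂ) (φ (w - (starRingEnd ℂ) z)) := by
      rw [← hA z w, ← hev]; congr 1; ring
    have e3 : φ ((starRingEnd ℂ) z - w) = φ (w - (starRingEnd ℂ) z) := by
      rw [← hev]; congr 1; ring
    have e4 : φ ((starRingEnd ℂ) z - (starRingEnd ℂ) w) =
        φ ((starRingEnd ℂ) w - (starRingEnd ℂ) z) := by
      rw [← hev]; congr 1; ring
    have hp2 : p z w ^ 2 = (starRingEnd ℂ) (c z) * c w * φ (w - (starRingEnd ℂ) z) ^ 2 := by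
      simp only [hp]
      rw [← hs z, ← hs w, map_pow]; ring
    have hq2 : q z w ^ 2 = (starRingEnd ℂ) (c z) * (starRingEnd ℂ) (c w) *
        φ ((starRingEnd ℂ) w - (starRingEnd ℂ) z) ^ 2 := by
      simp only [hq]
      rw [← hs z, ← hs w, map_pow, map_pow]; ring
    have key : 2 * c z * (2 * c w * φ (z - w) ^ 2 +
          2 * (starRingEnd ℂ) (c w) * φ (z - (starRingEnd ℂ) w) ^ 2) +
        2 * (starRingEnd ℂ) (c z) * (2 * c w * φ ((starRingEnd ℂ) z - w) ^ 2 +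
          2 * (starRingEnd ℂ) (c w) * φ ((starRingEnd ℂ) z - (starRingEnd ℂ) w) ^ 2) =
        4 * (p z w ^ 2 + (starRingEnd ℂ) (p z w ^ 2)) +
          4 * (q z w ^ 2 + (starRingEnd ℂ) (q z w ^ 2)) := by
      rw [hp2, hq2, e1, e2, e3, e4]
      simp only [map_mul, map_pow, Complex.conj_conj]
      ring
    rw [key]
    have hgen : ∀ A B : ℂ, (4 * (A + (starRingEnd ℂ) A) + 4 * (B + (starRingEnd ℂ) B)).re =
        8 * (A.re + B.re) := by
      intro A B
      simp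
      ring
    rw [hgen]
  have htr2 : ∑ z ∈ P, ∑ w ∈ P, 8 * ((p z w ^ 2).re + (q z w ^ 2).re) =
      ∑ z ∈ P, ∑ w ∈ P, (r z w) ^ 2 - 2 * ∑ z ∈ P, ∑ w ∈ P, ‖inner ℂ (x z) (b w)‖ ^ 2 +
        ∑ z ∈ P, ∑ w ∈ P, ‖inner ℂ (b z) (b w)‖ ^ 2 := by
    have h1 : 2 * ∑ z ∈ P, ∑ w ∈ P, ‖inner ℂ (x z) (b w)‖ ^ 2 =
        ∑ z ∈ P, ∑ w ∈ P, (‖inner ℂ (x z) (b w)‖ ^ 2 + ‖inner ℂ (x w) (b z)‖ ^ 2) := by
      simp_rw [Finset.sum_add_distrib]
      rw [Finset.sum_comm (f := fun z w => ‖inner ℂ (x w) (b z)‖ ^ 2)]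
      ring
    rw [h1, ← Finset.sum_sub_distrib, ← Finset.sum_add_distrib]
    refine Finset.sum_congr rfl fun z _ => ?_
    rw [← Finset.sum_sub_distrib, ← Finset.sum_add_distrib]
    refine Finset.sum_congr rfl fun w _ => ?_
    have hA2 : ∀ A : ℂ, (A ^ 2).re = A.re ^ 2 - A.im ^ 2 := by
      intro A
      rw [sq, Complex.mul_re]
      ring
    have hrz : r z w = 2 * (p z w).re + 2 * (q z w).re := rfl
    rw [hxbr, hxbr', hbbr, Complex.norm_real, Real.norm_eq_abs, sq_abs, hA2, hA2, hrz]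
    generalize p z w = p'
    generalize q z w = q'
    ring
  -- facts on S and P
  have hSP : S ⊆ P := by
    intro z hz
    simp only [hP, Finset.mem_filter]
    exact ⟨hSZ hz, (hSr z hz).1.ge⟩
  have hrd : ∀ z, r z z = 4 * (c z).re + ‖b z‖ ^ 2 := by
    intro z
    have h1 : ((‖b z‖ ^ 2 : ℝ) : ℂ) = inner ℂ (b z) (b z) := by
      rw [inner_self_eq_norm_sq_to_K]; push_cast; rfl
    rw [hbbr] at h1
    have h2 := Complex.ofReal_injective h1
    rw [h2]
    simp only [hr]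
    have h3 : (q z z).re = (c z).re := by
      simp only [hq, sub_self, h0, mul_one]
      rw [← hs z, ← map_mul, Complex.conj_re, sq]
    rw [h3]
    ring
  have hbS : ∀ z ∈ S, ‖b z‖ ^ 2 = 0 := by
    intro z hz
    obtain ⟨hz1, hz2⟩ := hSr z hz
    have hzc : (starRingEnd ℂ) z = z := Complex.conj_eq_iff_im.mpr hz1
    have haz := hac z (hSZ hz)
    rw [hzc] at haz
    have hai : (a z).im = 0 := Complex.conj_eq_iff_im.mp haz.symm
    have hcz : c z = a z / 4 := by simp only [hc]; rw [if_pos hz1]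
    have hsz := hs z
    rw [hcz] at hsz
    have h1 : (s z ^ 2).im = 0 := by rw [hsz]; simp [hai]
    have h2 : 0 ≤ (s z ^ 2).re := by
      rw [hsz]; simp; linarith
    rw [sq, Complex.mul_im] at h1
    rw [sq, Complex.mul_re] at h2
    have h3 : (s z).im = 0 := by
      by_contra hne
      have h4 : (s z).re = 0 := by
        have : (s z).im * (s z).re = 0 := by linarith
        rcases mul_eq_zero.1 this with h | h
        · exact absurd h hne
        · exact h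
      rw [h4] at h2
      have := mul_self_pos.2 hne
      linarith
    have h5 : (starRingEnd ℂ) (s z) = s z := Complex.conj_eq_iff_im.mpr h3
    simp only [hb]
    rw [h5, hzc, sub_self, norm_zero]
    norm_num
  -- main inequality
  have hmain := H370.la_core_finset P x b D (by
    intro v
    have e1 : ∀ z ∈ P, ∑ w ∈ P, D z w * ((starRingEnd ℂ) (v z) * v w).re = d z * ‖v z‖ ^ 2 := by
      intro z hz
      simp only [hD, ite_mul, zero_mul]
      rw [Finset.sum_ite_eq, if_pos hz, Complex.conj_mul', ← Complex.ofReal_pow, Complex.ofReal_re]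
    rw [Finset.sum_congr rfl e1, Finset.mul_sum]
    refine Finset.sum_le_sum fun z _ => ?_
    have : d z ≤ 2 := by
      simp only [hd]; split_ifs
      · exact hθ2
      · exact le_rfl
    exact mul_le_mul_of_nonneg_right this (by positivity))
  have hDr : ∑ z ∈ P, ∑ w ∈ P, ‖inner ℂ (x z) (x w) - (D z w : ℂ)‖ ^ 2 =
      ∑ z ∈ P, ∑ w ∈ P, (r z w) ^ 2 - ∑ z ∈ P, 2 * d z * r z z + ∑ z ∈ P, d z ^ 2 := by
    rw [← Finset.sum_sub_distrib, ← Finset.sum_add_distrib]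
    refine Finset.sum_congr rfl fun z hz => ?_
    have e1 : ∀ w ∈ P, ‖inner ℂ (x z) (x w) - (D z w : ℂ)‖ ^ 2 =
        (r z w) ^ 2 + (if z = w then (- 2 * d z * r z z + d z ^ 2) else 0) := by
      intro w _
      rw [hxxr, ← Complex.ofReal_sub, Complex.norm_real, Real.norm_eq_abs, sq_abs]
      by_cases h : z = w
      · subst h
        rw [show D z z = d z from if_pos rfl, if_pos rfl]
        ring
      · rw [show D z w = 0 from if_neg h, if_neg h]
        ring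
    rw [Finset.sum_congr rfl e1, Finset.sum_add_distrib, Finset.sum_ite_eq, if_pos hz]
    ring
  have hN : ∑ z ∈ P, 4 * (c z).re = (∑ z ∈ Z, a z).re := by
    have h1 := hsplit (fun _ => 1)
    simp only [mul_one] at h1
    rw [h1, Complex.re_sum]
    refine Finset.sum_congr rfl fun z _ => ?_
    simp only [Complex.add_re, Complex.mul_re, Complex.conj_re, Complex.conj_im]
    norm_num
    ring
  have hNS : ∑ z ∈ S, 4 * (c z).re = ∑ z ∈ S, (a z).re := by
    refine Finset.sum_congr rfl fun z hz => ?_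
    obtain ⟨hz1, hz2⟩ := hSr z hz
    have hcz : c z = a z / 4 := by simp only [hc]; rw [if_pos hz1]
    rw [hcz]
    simp
    ring
  have hcard : ((P \ S).card : ℝ) = (((Z \ S).filter (fun z => z.im = 0)).card : ℝ)
          + ((Z.filter (fun z => 0 < z.im)).card : ℝ) := by
    rw [← Nat.cast_add, ← Finset.card_union_of_disjoint]
    · congr 2
      ext z
      simp only [hP, Finset.mem_sdiff, Finset.mem_filter, Finset.mem_union]
      constructor
      · rintro ⟨⟨h1, h2⟩, h3⟩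
        rcases h2.eq_or_lt with h4 | h4
        · left
          exact ⟨⟨h1, h3⟩, h4.symm⟩
        · right
          exact ⟨h1, h4⟩
      · rintro (⟨⟨h1, h3⟩, h2⟩ | ⟨h1, h2⟩)
        · exact ⟨⟨h1, h2.ge⟩, h3⟩
        · exact ⟨⟨h1, h2.le⟩, fun h => by linarith [(hSr z h).1]⟩
    · rw [Finset.disjoint_left]
      intro z h1 h2
      simp only [Finset.mem_filter] at h1 h2
      linarith [h1.2, h2.2]
  have hsum1 : ∑ z ∈ P, 2 * d z * r z z = 4 * (∑ z ∈ Z, a z).re -
      2 * (2 - θ) * ∑ z ∈ S, 4 * (c z).re + 4 * ∑ z ∈ P, ‖b z‖ ^ 2 := by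
    have e1 : ∑ z ∈ P, 2 * d z * r z z = ∑ z ∈ P, (4 * (4 * (c z).re) + 4 * ‖b z‖ ^ 2 -
        if z ∈ S then 2 * (2 - θ) * (4 * (c z).re) else 0) := by
      refine Finset.sum_congr rfl fun z hz => ?_
      rw [hrd]
      simp only [hd]
      split_ifs with h
      · rw [hbS z h]; ring
      · ring
    rw [e1, Finset.sum_sub_distrib, Finset.sum_add_distrib, ← Finset.mul_sum, hN, ← Finset.mul_sum,
      ← Finset.sum_filter]
    have e2 : P.filter (fun z => z ∈ S) = S := by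
      ext z
      simp only [Finset.mem_filter]
      exact ⟨fun h => h.2, fun h => ⟨hSP h, h⟩⟩
    have e3 : ∑ z ∈ S, 2 * (2 - θ) * (4 * (c z).re) = 2 * (2 - θ) * ∑ z ∈ S, 4 * (c z).re := by
      rw [Finset.mul_sum]
    rw [e2, e3]
    ring
  have hsum2 : ∑ z ∈ P, d z ^ 2 = θ ^ 2 * (S.card : ℝ) + 4 * ((P \ S).card : ℝ) := by
    rw [← Finset.sum_sdiff hSP]
    have e1 : ∑ z ∈ P \ S, d z ^ 2 = 4 * ((P \ S).card : ℝ) := by
      rw [Finset.card_eq_sum_ones, Nat.cast_sum, Finset.mul_sum]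
      refine Finset.sum_congr rfl fun z hz => ?_
      simp only [hd]
      rw [if_neg (Finset.mem_sdiff.1 hz).2]; norm_num
    have e2 : ∑ z ∈ S, d z ^ 2 = θ ^ 2 * (S.card : ℝ) := by
      rw [Finset.card_eq_sum_ones, Nat.cast_sum, Finset.mul_sum]
      refine Finset.sum_congr rfl fun z hz => ?_
      simp only [hd]
      rw [if_pos hz]; norm_num
    rw [e1, e2]
    ring
  rw [htr, htr2]
  rw [hDr, hsum1, hsum2, hcard, hNS] at hmain
  linarith

/-- the weight of a zero -/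
noncomputable def W2 (r : ℕ) (F : ℂ → ℂ) (T : ℝ) (s : ℂ) : ℝ :=
  if s.re = 1 / 2 ∧ mult F s ≤ r then 2 * (r : ℝ) * (mult F s : ℝ) * (cc T (zz s)).re - (r : ℝ) ^ 2
  else 2 * ((r : ℝ) + 1) * (mult F s : ℝ) * (cc T (zz s)).re - k0 ((r : ℝ) + 1) s

theorem trace_two (r : ℕ) (γ : ℝ) (h0 : 0 < γ) (hπ : γ < Real.pi) {d A Q : ℝ} {F : ℂ → ℂ}
    {a : ℕ → ℂ} (hF : GoodD d A Q F a) (T Λ V1 V2 : ℝ) (hΛ : 0 < Λ) (hT : 0 ≤ T) (hV : 1 ≤ V1)
    (hfin : (zset F V1 V2).Finite) :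
    ∑ s ∈ hfin.toFinset, W2 r F T s ≤
      (2 / (Real.sqrt Real.pi * Λ)) * (∫ u in (0 : ℝ)..Λ, Rw γ (u / Λ) *
          ∫ t : ℝ, ‖BB F V1 V2 T u t‖ ^ 2) := by
  classical
  obtain ⟨lam, hlr⟩ : ∃ lam : ℝ, lam = (r : ℝ) + 1 := ⟨_, rfl⟩
  have hr0 : (0 : ℝ) ≤ r := Nat.cast_nonneg r
  have hlam : 0 < lam := by linarith
  set Zf := hfin.toFinset with hZf
  have hmem : ∀ {s}, s ∈ Zf ↔ s ∈ zset F V1 V2 := by
    intro s; rw [hZf, Set.Finite.mem_toFinset]
  set Z := Zf.image zz with hZdef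
  have hinj : Set.InjOn zz (Zf : Set ℂ) := fun s _ s' _ h => zz_inj h
  have hZ : ∀ z ∈ Z, (starRingEnd ℂ) z ∈ Z := by
    intro z hz
    obtain ⟨s, hs, rfl⟩ := Finset.mem_image.mp hz
    rw [← zz_refl]
    exact Finset.mem_image_of_mem _ (hmem.2 (zset_refl hF hV (hmem.1 hs)))
  have hac : ∀ z ∈ Z, aw F T ((starRingEnd ℂ) z) = (starRingEnd ℂ) (aw F T z) := by
    intro z hz
    obtain ⟨s, hs, rfl⟩ := Finset.mem_image.mp hz
    obtain ⟨h1, h2, h3, h4, h5⟩ := hmem.1 hs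
    rw [← zz_refl, aw_zz, aw_zz, map_mul, Complex.conj_natCast, cc_conj, zz_refl,
      mult_refl hF h1 h2 (by linarith)]
  obtain ⟨E, i1, i2, k, hk⟩ := gram_w γ h0 hπ Λ
  obtain ⟨t, ht⟩ : ∃ t : ℝ, t = 2 / lam := ⟨_, rfl⟩
  have hac' : ∀ z ∈ Z, (fun z => ((t : ℝ) : ℂ) * aw F T z) ((starRingEnd ℂ) z) =
      (starRingEnd ℂ) ((fun z => ((t : ℝ) : ℂ) * aw F T z) z) := by
    intro z hz
    simp only [map_mul, Complex.conj_ofReal]
    rw [hac z hz]
  set S := Z.filter (fun z => z.im = 0 ∧ mult F (1 / 2 + I * z) ≤ r) with hS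
  have hSZ : S ⊆ Z := Finset.filter_subset _ _
  have ht0 : 0 < t := by rw [ht]; positivity
  have hSa : ∀ z ∈ S, 0 ≤ (aw F T z).re := by
    intro z hz
    obtain ⟨hz1, hz2, hz3⟩ := Finset.mem_filter.mp hz
    have hzr : z = ((z.re : ℝ) : ℂ) := by
      apply Complex.ext
      · simp
      · simp [hz2]
    have h4 := cc_real T z.re hT
    rw [← hzr] at h4
    unfold aw
    rw [← Complex.ofReal_natCast, Complex.re_ofReal_mul]
    exact mul_nonneg (Nat.cast_nonneg _) h4.2.1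
  have hSr : ∀ z ∈ S, z.im = 0 ∧ 0 ≤ ((fun z => ((t : ℝ) : ℂ) * aw F T z) z).re := by
    intro z hz
    refine ⟨(Finset.mem_filter.mp hz).2.1, ?_⟩
    show 0 ≤ (((t : ℝ) : ℂ) * aw F T z).re
    rw [Complex.re_ofReal_mul]
    exact mul_nonneg ht0.le (hSa z hz)
  obtain ⟨θ, hθ⟩ : ∃ θ : ℝ, θ = 2 * r / lam := ⟨_, rfl⟩
  have hθ0 : 0 ≤ θ := by rw [hθ]; positivity
  have hθ2 : θ ≤ 2 := by
    rw [hθ, div_le_iff₀ hlam]
    linarith
  have hmain := trace_wt θ hθ0 hθ2 (phiw γ Λ) k hk (phiw_even γ Λ) (phiw_zero γ h0 hπ Λ) Z hZ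
    (fun z => ((t : ℝ) : ℂ) * aw F T z) hac' S hSZ hSr
  have hq := quad_form γ Λ hΛ (kapw_sq γ h0 hπ) (Rw_cont γ h0 hπ) (Rw_even γ) Z hZ (aw F T) hac
  have hBB : ∀ u t : ℝ, ∑ z ∈ Z, aw F T z * (cexp (I * u * z) * cexp (-(z - t) ^ 2 / 2)) =
      BB F V1 V2 T u t := by
    intro u t
    unfold BB
    rw [finsum_mem_eq_finite_toFinset_sum _ hfin, hZdef, Finset.sum_image hinj]
    refine Finset.sum_congr rfl fun s _ => ?_
    rw [aw_zz]
  simp_rw [hBB] at hq
  rw [← hq]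
  -- scaling
  have hsc : (∑ z ∈ Z, ∑ w ∈ Z, ((t : ℝ) : ℂ) * aw F T z * (((t : ℝ) : ℂ) * aw F T w) * (phiw γ Λ (z - w)) ^ 2).re =
      t ^ 2 * (∑ z ∈ Z, ∑ w ∈ Z, aw F T z * aw F T w * (phiw γ Λ (z - w)) ^ 2).re := by
    rw [← Complex.re_ofReal_mul]
    congr 1
    rw [Finset.mul_sum]
    refine Finset.sum_congr rfl fun z _ => ?_
    rw [Finset.mul_sum]
    refine Finset.sum_congr rfl fun w _ => ?_
    push_cast
    ring
  have hlin : (∑ z ∈ Z, ((t : ℝ) : ℂ) * aw F T z).re = t * (∑ z ∈ Z, aw F T z).re := by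
    rw [← Finset.mul_sum, Complex.re_ofReal_mul]
  have hlin2 : (∑ z ∈ S, (((t : ℝ) : ℂ) * aw F T z).re) = t * ∑ z ∈ S, (aw F T z).re := by
    rw [Finset.mul_sum]
    refine Finset.sum_congr rfl fun z _ => ?_
    rw [Complex.re_ofReal_mul]
  rw [hsc, hlin, hlin2] at hmain
  obtain ⟨QQ, hQQ⟩ : ∃ x, x = (∑ z ∈ Z, ∑ w ∈ Z, aw F T z * aw F T w * (phiw γ Λ (z - w)) ^ 2).re := ⟨_, rfl⟩
  rw [← hQQ] at hmain ⊢
  -- compute the left hand side
  have c1 : (∑ z ∈ Z, aw F T z).re = ∑ s ∈ Zf, (mult F s : ℝ) * (cc T (zz s)).re := by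
    rw [hZdef, Finset.sum_image hinj, Complex.re_sum]
    refine Finset.sum_congr rfl fun s _ => ?_
    rw [aw_zz, ← Complex.ofReal_natCast, Complex.re_ofReal_mul]
  have him0 : ∀ s, (zz s).im = 0 ↔ s.re = 1 / 2 := by
    intro s; rw [zz_im]; constructor <;> intro h <;> linarith
  have c2 : (S.card : ℝ) = ∑ s ∈ Zf, if (s.re = 1 / 2 ∧ mult F s ≤ r) then 1 else 0 := by
    rw [hS, Finset.card_filter, Nat.cast_sum, hZdef, Finset.sum_image hinj]
    refine Finset.sum_congr rfl fun s _ => ?_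
    simp only [him0, zz_spec, Nat.cast_ite, Nat.cast_one, Nat.cast_zero]
  have c2' : (∑ z ∈ S, (aw F T z).re) =
      ∑ s ∈ Zf, if (s.re = 1 / 2 ∧ mult F s ≤ r) then (mult F s : ℝ) * (cc T (zz s)).re else 0 := by
    rw [hS, Finset.sum_filter, hZdef, Finset.sum_image hinj]
    refine Finset.sum_congr rfl fun s _ => ?_
    simp only [him0, zz_spec]
    rw [aw_zz, ← Complex.ofReal_natCast, Complex.re_ofReal_mul]
  have c3 : (((Z \ S).filter (fun z => z.im = 0)).card : ℝ) =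
      ∑ s ∈ Zf, if (s.re = 1 / 2 ∧ ¬ mult F s ≤ r) then 1 else 0 := by
    have : (Z \ S).filter (fun z => z.im = 0) =
        Z.filter (fun z => z.im = 0 ∧ ¬ mult F (1 / 2 + I * z) ≤ r) := by
      ext z
      simp only [hS, Finset.mem_filter, Finset.mem_sdiff]
      tauto
    rw [this, Finset.card_filter, Nat.cast_sum, hZdef, Finset.sum_image hinj]
    refine Finset.sum_congr rfl fun s _ => ?_
    simp only [him0, zz_spec, Nat.cast_ite, Nat.cast_one, Nat.cast_zero]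
  have c4 : 2 * ((Z.filter (fun z => 0 < z.im)).card : ℝ) =
      ∑ s ∈ Zf, if s.re = 1 / 2 then 0 else 1 := by
    have e1 : (Z.filter (fun z => z.im < 0)).card = (Z.filter (fun z => 0 < z.im)).card := by
      refine Finset.card_nbij' (fun z => (starRingEnd ℂ) z) (fun z => (starRingEnd ℂ) z) ?_ ?_ ?_ ?_
      · intro z hz
        simp only [Finset.coe_filter, Set.mem_ofPred_eq] at hz ⊢
        refine ⟨hZ z hz.1, ?_⟩
        rw [Complex.conj_im]; linarith [hz.2]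
      · intro z hz
        simp only [Finset.coe_filter, Set.mem_ofPred_eq] at hz ⊢
        refine ⟨hZ z hz.1, ?_⟩
        rw [Complex.conj_im]; linarith [hz.2]
      · intro z _; simp
      · intro z _; simp
    have e2 : (Z.filter (fun z => ¬ z.im = 0)).card =
        (Z.filter (fun z => z.im < 0)).card + (Z.filter (fun z => 0 < z.im)).card := by
      rw [← Finset.card_union_of_disjoint]
      · congr 1
        ext z
        simp only [Finset.mem_filter, Finset.mem_union]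
        constructor
        · rintro ⟨h1, h2⟩
          rcases lt_or_gt_of_ne h2 with h | h
          · exact Or.inl ⟨h1, h⟩
          · exact Or.inr ⟨h1, h⟩
        · rintro (⟨h1, h2⟩ | ⟨h1, h2⟩)
          · exact ⟨h1, ne_of_lt h2⟩
          · exact ⟨h1, ne_of_gt h2⟩
      · rw [Finset.disjoint_filter]
        intro z _ h1 h2
        linarith
    have e3 : 2 * ((Z.filter (fun z => 0 < z.im)).card : ℝ) =
        ((Z.filter (fun z => ¬ z.im = 0)).card : ℝ) := by
      rw [e2, e1]; push_cast; ring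
    rw [e3, Finset.card_filter, Nat.cast_sum, hZdef, Finset.sum_image hinj]
    refine Finset.sum_congr rfl fun s _ => ?_
    simp only [him0, Nat.cast_ite, Nat.cast_one, Nat.cast_zero, ite_not]
  have c5 : ∑ s ∈ Zf, W2 r F T s =
      2 * ((r : ℝ) + 1) * (∑ s ∈ Zf, (mult F s : ℝ) * (cc T (zz s)).re) -
      2 * (∑ s ∈ Zf, if (s.re = 1 / 2 ∧ mult F s ≤ r) then (mult F s : ℝ) * (cc T (zz s)).re else 0) -
      (r : ℝ) ^ 2 * (∑ s ∈ Zf, if (s.re = 1 / 2 ∧ mult F s ≤ r) then (1 : ℝ) else 0) -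
      (((r : ℝ) + 1) ^ 2 * (∑ s ∈ Zf, if (s.re = 1 / 2 ∧ ¬ mult F s ≤ r) then (1 : ℝ) else 0) +
        ((r : ℝ) + 1) ^ 2 / 2 * (∑ s ∈ Zf, if s.re = 1 / 2 then (0 : ℝ) else 1)) := by
    rw [Finset.mul_sum, Finset.mul_sum, Finset.mul_sum, Finset.mul_sum, Finset.mul_sum,
      ← Finset.sum_sub_distrib, ← Finset.sum_sub_distrib, ← Finset.sum_add_distrib,
      ← Finset.sum_sub_distrib]
    refine Finset.sum_congr rfl fun s _ => ?_
    unfold W2 k0
    by_cases h1 : s.re = 1 / 2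
    · have p3 : (s.re = 1 / 2) = True := eq_true h1
      by_cases h2 : mult F s ≤ r
      · have p4 : (mult F s ≤ r) = True := eq_true h2
        simp only [p3, p4, true_and, not_true_eq_false, if_true, if_false]; ring
      · have p4 : (mult F s ≤ r) = False := eq_false h2
        simp only [p3, p4, true_and, not_false_eq_true, if_true, if_false]; ring
    · have p3 : (s.re = 1 / 2) = False := eq_false h1
      simp only [p3, false_and, if_false]; ring
  rw [c5, ← c1, ← c2, ← c2', ← c3, ← c4, ← hlr]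
  obtain ⟨S1, hS1⟩ : ∃ x, x = (∑ z ∈ Z, aw F T z).re := ⟨_, rfl⟩
  obtain ⟨S2, hS2⟩ : ∃ x, x = (∑ z ∈ S, (aw F T z).re) := ⟨_, rfl⟩
  obtain ⟨n2, hn2⟩ : ∃ x, x = (S.card : ℝ) := ⟨_, rfl⟩
  obtain ⟨n3, hn3⟩ : ∃ x, x = (((Z \ S).filter (fun z => z.im = 0)).card : ℝ) := ⟨_, rfl⟩
  obtain ⟨n4, hn4⟩ : ∃ x, x = ((Z.filter (fun z => 0 < z.im)).card : ℝ) := ⟨_, rfl⟩
  rw [← hS1, ← hS2, ← hn2, ← hn3, ← hn4] at hmain ⊢
  have e4 : lam * t = 2 := by rw [ht]; field_simp
  have e4' : lam * θ = 2 * r := by rw [hθ]; field_simp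
  have e5 : lam ^ 2 / 4 * (t ^ 2 * QQ) = QQ := by
    have : lam ^ 2 / 4 * (t ^ 2 * QQ) = (lam * t) ^ 2 / 4 * QQ := by ring
    rw [this, e4]; ring
  have e6 := mul_le_mul_of_nonneg_left hmain (show 0 ≤ lam ^ 2 / 4 by positivity)
  rw [e5] at e6
  refine le_trans (le_of_eq ?_) e6
  have e7 : lam ^ 2 / 4 * (4 * (t * S1) - 2 * (2 - θ) * (t * S2) - θ ^ 2 * n2 - 4 * (n3 + n4)) =
      lam * (lam * t) * S1 - (lam - lam * θ / 2) * (lam * t) * S2 - (lam * θ) ^ 2 / 4 * n2 -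
        lam ^ 2 * (n3 + n4) := by ring
  rw [e7, e4, e4', hlr]
  ring

end Pool.Agent.T2H62.MQ
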