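import Pool.Agent.T2H62.MQ.A2

/-!
# The trace inequality with two levels

A zero on the critical line of multiplicity `m ≤ r` counts `2 r m - r²`, one of multiplicity `m > r`
counts `2 (r + 1) m - (r + 1)²`, a zero off the line `2 (r + 1) m - (r + 1)² / 2`: each of them is at
least `(2 r + 1) m - r (r + 1)`. Adapted from `Pool.Agent.H385R2.TraceW` and `Pool.Agent.H385R2.PerChiD`.
-/

open Complex Filter Topology Set MeasureTheory
open scoped BigOperators ComplexConjugate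
open H370 (zset mult NN Nd Ns)

set_option maxHeartbeats 4000000

namespace Pool.Agent.T2H62.MQ

open H385
open H385.PerChi (zz_spec zz_refl zz_inj zz_re zz_im phiw_even phiw_zero Rw_cont aw aw_zz log_bd)
open H385.PerChiD (zset_refl mult_refl)

theorem core_two (r : ℕ) (hr : 1 ≤ r) (γ : ℝ) (h0 : 0 < γ) (hπ : γ < Real.pi) (d A : ℝ) (hd : 1 ≤ d)
    (hA : 1 ≤ A) :
    ∃ C : ℝ, 0 < C ∧ ∀ (Q : ℝ) (F : ℂ → ℂ) (a : ℕ → ℂ), 1 ≤ Q → GoodD d A Q F a →
    ∀ (w : ℂ → ℝ), (∀ s, w s = (2 * (r : ℝ) + 1) * (mult F s : ℝ) - r * (r + 1)) →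
    ∀ T κ Λ V1 V2 : ℝ, 3 ≤ κ → 8 * κ ≤ T → 1 ≤ Λ → T - 3 * κ ≤ V1 → V1 ≤ T - 3 * κ + 1 →
      2 * T + 3 * κ - 1 ≤ V2 → V2 ≤ 2 * T + 3 * κ →
      ∀ hfin : (zset F T (2 * T)).Finite, ∑ s ∈ hfin.toFinset, w s ≤
        (2 / (Real.sqrt Real.pi * Λ)) * (∫ u in (0 : ℝ)..Λ, Rw γ (u / Λ) *
          ∫ t : ℝ, ‖BB F V1 V2 T u t‖ ^ 2)
        + C * (κ + T * Real.exp (-κ ^ 2 / 2)) * Real.log (Q * T) := by
  obtain ⟨C0, hC0, hcount⟩ := zcount_long_D d A hd hA
  obtain ⟨lam, hlr⟩ : ∃ lam : ℝ, lam = (r : ℝ) + 1 := ⟨_, rfl⟩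
  have hr1 : (1 : ℝ) ≤ r := by exact_mod_cast hr
  have hlam : 1 ≤ lam := by linarith
  refine ⟨240 * lam ^ 2 * C0, by positivity, ?_⟩
  intro Q F a hQ hFU w hw T κ Λ V1 V2 hκ hκT hΛ hV1 hV1' hV2 hV2' hfin
  have hlam0 : 0 < lam := by linarith
  have hlam2 : lam ≤ lam ^ 2 := by nlinarith
  have hV1pos : 15 ≤ V1 := by linarith
  have hT24 : 24 ≤ T := by linarith
  have hfinV : (zset F V1 V2).Finite := zset_finite_D hA hQ hFU V1 V2 (by linarith)
  have htr := trace_two r γ h0 hπ hFU T Λ V1 V2 (by linarith) (by linarith) (by linarith) hfinV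
  set e := Real.exp (-κ ^ 2 / 2) with he
  have he0 : 0 < e := Real.exp_pos _
  -- counts
  have hNV := hcount Q F a hQ hFU V1 V2 (by linarith) (by linarith)
  have hNa := hcount Q F a hQ hFU V1 (T + κ) (by linarith) (by linarith)
  have hNb := hcount Q F a hQ hFU (2 * T - κ) V2 (by linarith) (by linarith)
  set L := Real.log (Q * T) with hL
  have hL0 : 0 ≤ L := Real.log_nonneg (by nlinarith)
  have l1 : Real.log (Q * V2) ≤ 2 * L := log_bd hQ (by linarith) (by linarith) (by linarith)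
  have l2 : Real.log (Q * (T + κ)) ≤ 2 * L := log_bd hQ (by linarith) (by linarith) (by linarith)
  have aux : ∀ x y z w : ℝ, 0 ≤ y → x ≤ y → z ≤ 2 * L → 0 ≤ z → w ≤ C0 * x * z →
      w ≤ C0 * y * (2 * L) := by
    intro x y z w hy hxy hz hz0 hw
    refine hw.trans ?_
    have h1 : C0 * x * z ≤ C0 * y * z := by gcongr
    refine h1.trans ?_
    gcongr
  have p1 : 0 ≤ Real.log (Q * V2) := Real.log_nonneg (by nlinarith)
  have p2 : 0 ≤ Real.log (Q * (T + κ)) := Real.log_nonneg (by nlinarith)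
  have b1 : (NN F V1 V2 : ℝ) ≤ C0 * (2 * T) * (2 * L) :=
    aux _ _ _ _ (by linarith) (by linarith) l1 p1 hNV
  have b2 : (NN F V1 (T + κ) : ℝ) ≤ C0 * (4 * κ) * (2 * L) :=
    aux _ _ _ _ (by linarith) (by linarith) l2 p2 hNa
  have b3 : (NN F (2 * T - κ) V2 : ℝ) ≤ C0 * (4 * κ) * (2 * L) :=
    aux _ _ _ _ (by linarith) (by linarith) l1 p1 hNb
  -- sums over zeros
  have hmulti : ∀ s ∈ hfinV.toFinset, 1 ≤ mult F s := by
    intro s hs
    rw [Set.Finite.mem_toFinset] at hs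
    exact LocD.mult_pos_D hA hFU (by linarith [hs.2.2.1]) hs.2.2.2.2
  have n1 : (NN F V1 V2 : ℝ) = ∑ s ∈ hfinV.toFinset, (mult F s : ℝ) := by
    unfold NN
    rw [finsum_mem_eq_finite_toFinset_sum _ hfinV]
    push_cast; rfl
  have n2 : (NN F V1 (T + κ) : ℝ) =
      ∑ s ∈ hfinV.toFinset, if s.im ≤ T + κ then (mult F s : ℝ) else 0 := by
    have hf : (zset F V1 (T + κ)).Finite := zset_finite_D hA hQ hFU V1 _ (by linarith)
    unfold NN
    rw [finsum_mem_eq_finite_toFinset_sum _ hf, ← Finset.sum_filter]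
    push_cast
    refine Finset.sum_congr ?_ fun _ _ => rfl
    ext s
    simp only [Finset.mem_filter, Set.Finite.mem_toFinset]
    constructor
    · rintro ⟨h1, h2, h3, h4, h5⟩
      exact ⟨⟨h1, h2, h3, by linarith, h5⟩, h4⟩
    · rintro ⟨⟨h1, h2, h3, h4, h5⟩, h6⟩
      exact ⟨h1, h2, h3, h6, h5⟩
  have n3 : (NN F (2 * T - κ) V2 : ℝ) =
      ∑ s ∈ hfinV.toFinset, if 2 * T - κ < s.im then (mult F s : ℝ) else 0 := by
    have hf : (zset F (2 * T - κ) V2).Finite := zset_finite_D hA hQ hFU _ _ (by linarith)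
    unfold NN
    rw [finsum_mem_eq_finite_toFinset_sum _ hf, ← Finset.sum_filter]
    push_cast
    refine Finset.sum_congr ?_ fun _ _ => rfl
    ext s
    simp only [Finset.mem_filter, Set.Finite.mem_toFinset]
    constructor
    · rintro ⟨h1, h2, h3, h4, h5⟩
      exact ⟨⟨h1, h2, by linarith, h4, h5⟩, h3⟩
    · rintro ⟨⟨h1, h2, h3, h4, h5⟩, h6⟩
      exact ⟨h1, h2, h6, h4, h5⟩
  have n4 : ∑ s ∈ hfin.toFinset, w s =
      ∑ s ∈ hfinV.toFinset, if T < s.im ∧ s.im ≤ 2 * T then w s else 0 := by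
    rw [← Finset.sum_filter]
    refine Finset.sum_congr ?_ fun _ _ => rfl
    ext s
    simp only [Finset.mem_filter, Set.Finite.mem_toFinset]
    constructor
    · rintro ⟨h1, h2, h3, h4, h5⟩
      exact ⟨⟨h1, h2, by linarith, by linarith, h5⟩, h3, h4⟩
    · rintro ⟨⟨h1, h2, h3, h4, h5⟩, h6, h7⟩
      exact ⟨h1, h2, h6, h7, h5⟩
  have hpt : ∀ s ∈ hfinV.toFinset, (if T < s.im ∧ s.im ≤ 2 * T then w s else 0) ≤
      W2 r F T s + 4 * lam * e * (mult F s : ℝ) +
        7 * lam ^ 2 * (if s.im ≤ T + κ then (mult F s : ℝ) else 0) +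
        7 * lam ^ 2 * (if 2 * T - κ < s.im then (mult F s : ℝ) else 0) := by
    intro s hs
    have hm := hmulti s hs
    have hm' : (1 : ℝ) ≤ (mult F s : ℝ) := by exact_mod_cast hm
    have h2 : w s ≤ 2 * lam * (mult F s : ℝ) := by
      rw [hw, hlr]
      have h3 : 0 ≤ (r : ℝ) * (r + 1) := by positivity
      linarith
    rw [Set.Finite.mem_toFinset] at hs
    have him : |(zz s).im| ≤ 1 / 2 := by
      rw [zz_im, abs_le]; constructor <;> linarith [hs.1, hs.2.1]
    have hk2 : k0 ((r : ℝ) + 1) s ≤ lam ^ 2 := by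
      have : 0 ≤ ((r : ℝ) + 1) ^ 2 := by positivity
      rw [hlr]
      unfold k0; split_ifs <;> linarith
    have hcre : -2 ≤ (cc T (zz s)).re := by
      have h3 := cc_bound T (by linarith) (zz s) him
      have h4 := Complex.abs_re_le_norm (cc T (zz s))
      linarith [neg_abs_le (cc T (zz s)).re]
    have hWlow : - (4 * lam * (mult F s : ℝ)) - lam ^ 2 ≤ W2 r F T s := by
      have h5 : 2 * lam * (mult F s : ℝ) * (-2) ≤ 2 * lam * (mult F s : ℝ) * (cc T (zz s)).re :=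
        mul_le_mul_of_nonneg_left hcre (by positivity)
      have h6 : 2 * (r : ℝ) * (mult F s : ℝ) * (-2) ≤ 2 * (r : ℝ) * (mult F s : ℝ) * (cc T (zz s)).re :=
        mul_le_mul_of_nonneg_left hcre (by positivity)
      have h7 : (r : ℝ) ^ 2 ≤ lam ^ 2 := by rw [hlr]; nlinarith
      have h8 : (r : ℝ) * (mult F s : ℝ) ≤ lam * (mult F s : ℝ) :=
        mul_le_mul_of_nonneg_right (by linarith) (by linarith)
      unfold W2
      rw [← hlr] at hk2 ⊢
      split_ifs <;> linarith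
    have hedge : ∀ X : ℝ, X ≤ 2 * lam * (mult F s : ℝ) → X ≤
        W2 r F T s + 4 * lam * e * (mult F s : ℝ) +
        7 * lam ^ 2 * (mult F s : ℝ) := by
      intro X hX
      have h6 : 0 ≤ 4 * lam * e * (mult F s : ℝ) := by positivity
      have h7 : lam * (mult F s : ℝ) ≤ lam ^ 2 * (mult F s : ℝ) :=
        mul_le_mul_of_nonneg_right hlam2 (by linarith)
      have h8 : lam ^ 2 * 1 ≤ lam ^ 2 * (mult F s : ℝ) := mul_le_mul_of_nonneg_left hm' (by positivity)
      nlinarith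
    have hX3 : (if T < s.im ∧ s.im ≤ 2 * T then w s else 0) ≤ 2 * lam * (mult F s : ℝ) := by
      split_ifs
      · exact h2
      · positivity
    by_cases c1 : s.im ≤ T + κ
    · rw [if_pos c1]
      have h7 : 0 ≤ 7 * lam ^ 2 * (if 2 * T - κ < s.im then (mult F s : ℝ) else 0) := by
        split_ifs <;> positivity
      linarith [hedge _ hX3]
    · rw [if_neg c1]
      by_cases c2 : 2 * T - κ < s.im
      · rw [if_pos c2]
        linarith [hedge _ hX3]
      · rw [if_neg c2, if_pos ⟨by push Not at c1; linarith, by push Not at c2; linarith⟩]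
        push Not at c1 c2
        have h8 := cc_near T κ (by linarith) (zz s) him (by rw [zz_re]; linarith)
          (by rw [zz_re]; linarith)
        have h9 : 1 - 2 * e ≤ (cc T (zz s)).re := by
          have h10 := Complex.abs_re_le_norm (cc T (zz s) - 1)
          rw [Complex.sub_re, Complex.one_re] at h10
          linarith [neg_abs_le ((cc T (zz s)).re - 1)]
        have h11 : 2 * lam * (mult F s : ℝ) * (1 - 2 * e) ≤ 2 * lam * (mult F s : ℝ) * (cc T (zz s)).re :=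
          mul_le_mul_of_nonneg_left h9 (by positivity)
        have h12 : 2 * (r : ℝ) * (mult F s : ℝ) * (1 - 2 * e) ≤
            2 * (r : ℝ) * (mult F s : ℝ) * (cc T (zz s)).re :=
          mul_le_mul_of_nonneg_left h9 (by positivity)
        have h13 : (r : ℝ) * (mult F s : ℝ) * e ≤ lam * (mult F s : ℝ) * e :=
          mul_le_mul_of_nonneg_right (mul_le_mul_of_nonneg_right (by linarith) (by linarith)) he0.le
        have hW : w s ≤ W2 r F T s + 4 * lam * e * (mult F s : ℝ) := by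
          rw [hw]
          unfold W2 k0
          rw [← hlr]
          by_cases g1 : s.re = 1 / 2
          · by_cases g2 : mult F s ≤ r
            · rw [if_pos ⟨g1, g2⟩]
              have g3 : (mult F s : ℝ) ≤ r := by exact_mod_cast g2
              rw [hlr] at h13 ⊢
              linarith
            · rw [if_neg (fun h => g2 h.2), if_pos g1]
              have g3 : (r : ℝ) + 1 ≤ mult F s := by
                have : r + 1 ≤ mult F s := by omega
                exact_mod_cast this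
              rw [hlr] at h11 ⊢
              nlinarith
          · rw [if_neg (fun h => g1 h.1), if_neg g1]
            have g4 : 0 ≤ ((r : ℝ) + 1) * (r - 1) := mul_nonneg (by linarith) (by linarith)
            rw [hlr] at h11 ⊢
            nlinarith
        linarith
  have hsum := Finset.sum_le_sum hpt
  rw [← n4] at hsum
  rw [Finset.sum_add_distrib, Finset.sum_add_distrib, Finset.sum_add_distrib, ← Finset.mul_sum,
    ← Finset.mul_sum, ← Finset.mul_sum, ← n1, ← n2, ← n3] at hsum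
  calc ∑ s ∈ hfin.toFinset, w s ≤ _ := hsum
    _ ≤ (2 / (Real.sqrt Real.pi * Λ)) * (∫ u in (0 : ℝ)..Λ, Rw γ (u / Λ) *
          ∫ t : ℝ, ‖BB F V1 V2 T u t‖ ^ 2) + 4 * lam * e * (C0 * (2 * T) * (2 * L)) +
          7 * lam ^ 2 * (C0 * (4 * κ) * (2 * L)) + 7 * lam ^ 2 * (C0 * (4 * κ) * (2 * L)) := by
        gcongr
    _ ≤ _ := by
        have h1 : 0 ≤ C0 * T * e * L := by positivity
        have h2 : lam * (C0 * T * e * L) ≤ lam ^ 2 * (C0 * T * e * L) := mul_le_mul_of_nonneg_right hlam2 h1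
        have h3 : 0 ≤ lam ^ 2 * (C0 * κ * L) := by positivity
        nlinarith

/-- the basic inequality with the number of distinct zeros and two levels -/
theorem per_two (r : ℕ) (hr : 1 ≤ r) (γ : ℝ) (h0 : 0 < γ) (hπ : γ < Real.pi) (d A : ℝ) (hd : 1 ≤ d)
    (hA : 1 ≤ A) :
    ∃ C : ℝ, 0 < C ∧ ∀ (Q : ℝ) (F : ℂ → ℂ) (a : ℕ → ℂ), 1 ≤ Q → GoodD d A Q F a →
    ∀ T κ Λ V1 V2 : ℝ, 3 ≤ κ → 8 * κ ≤ T → 1 ≤ Λ → T - 3 * κ ≤ V1 → V1 ≤ T - 3 * κ + 1 →
      2 * T + 3 * κ - 1 ≤ V2 → V2 ≤ 2 * T + 3 * κ →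
      (2 * (r : ℝ) + 1) * (NN F T (2 * T) : ℝ) - r * (r + 1) * (Nd F T (2 * T) : ℝ) ≤
        (2 / (Real.sqrt Real.pi * Λ)) * (∫ u in (0 : ℝ)..Λ, Rw γ (u / Λ) *
          ∫ t : ℝ, ‖BB F V1 V2 T u t‖ ^ 2)
        + C * (κ + T * Real.exp (-κ ^ 2 / 2)) * Real.log (Q * T) := by
  classical
  obtain ⟨C, hC, h⟩ := core_two r hr γ h0 hπ d A hd hA
  refine ⟨C, hC, ?_⟩
  intro Q F a hQ hFU T κ Λ V1 V2 hκ hκT hΛ hV1 hV1' hV2 hV2'
  have hfin : (zset F T (2 * T)).Finite := zset_finite_D hA hQ hFU T _ (by linarith)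
  have h1 := h Q F a hQ hFU
    (fun s => (2 * (r : ℝ) + 1) * (mult F s : ℝ) - r * (r + 1)) (fun s => rfl)
    T κ Λ V1 V2 hκ hκT hΛ hV1 hV1' hV2 hV2' hfin
  refine le_trans (le_of_eq ?_) h1
  rw [Finset.sum_sub_distrib, ← Finset.mul_sum]
  congr 1
  · congr 1
    unfold NN
    rw [finsum_mem_eq_finite_toFinset_sum _ hfin]
    push_cast; rfl
  · unfold Nd
    rw [Set.ncard_eq_toFinset_card _ hfin, Finset.sum_const, nsmul_eq_mul]
    ring

end Pool.Agent.T2H62.MQ
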