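import Pool.Agent.T2H25.ZR.A4

/-!
# Products of `k` shifted and twisted L-functions
-/

open Complex Filter Topology Set MeasureTheory
open H370 (zset mult NN Nd Ns)

set_option maxHeartbeats 4000000

namespace Pool.Agent.T2H62.MQ

open H385
open Pool.Agent.R321.RC (summ_of_le)
open Pool.Agent.T2H25.ZR (sh ni ni_norm Lt good_tw goodU_shift)

lemma summ_scale {d : ℝ} (hd : 1 ≤ d) {a : ℕ → ℂ} (ha : ∀ n, ‖a n‖ ≤ d * ArithmeticFunction.vonMangoldt n) {s : ℂ}
    (hs : 1 < s.re) : Summable (fun n : ℕ => a n * (n : ℂ) ^ (-s)) := by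
  have hd0 : 0 < d := by linarith
  have h1 : ∀ n, ‖((d⁻¹ : ℝ) : ℂ) * a n‖ ≤ ArithmeticFunction.vonMangoldt n := by
    intro n
    rw [norm_mul, Complex.norm_real, Real.norm_of_nonneg (by positivity), inv_mul_le_iff₀ hd0]
    exact ha n
  have h2 := (summ_of_le h1 hs).mul_left ((d : ℝ) : ℂ)
  refine h2.congr fun n => ?_
  have hdc : ((d : ℝ) : ℂ) ≠ 0 := by exact_mod_cast hd0.ne'
  push_cast
  field_simp

theorem U_to_D {A Q : ℝ} {F : ℂ → ℂ} {a : ℕ → ℂ} (hF : GoodU A Q F a) : GoodD 1 A Q F a := by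
  refine ⟨hF.an, hF.growth, hF.lower, hF.nzr, hF.nzl, hF.symm, ?_, hF.ld, ?_⟩
  · intro n
    rw [one_mul]
    exact hF.ha n
  · intro s h1 h2 h3 h4
    rw [one_mul]
    exact hF.left s h1 h2 h3 h4

theorem goodD_mulD {d d' A A' Q : ℝ} {F G : ℂ → ℂ} {a b : ℕ → ℂ} (hd : 1 ≤ d) (hd' : 1 ≤ d') (hA : 1 ≤ A)
    (hA' : 1 ≤ A') (hQ : 1 ≤ Q) (hF : GoodD d A Q F a) (hG : GoodD d' A' Q G b) :
    GoodD (d + d') (2 * (A * A')) Q (fun s => F s * G s) (fun n => a n + b n) := by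
  have hAA : 1 ≤ A * A' := one_le_mul_of_one_le_of_one_le hA hA'
  have hA2 : A + A' ≤ 2 * (A * A') := by nlinarith
  have hfun : (fun s => F s * G s) = F * G := rfl
  have hld : ∀ s : ℂ, 0 < s.im → F s ≠ 0 → G s ≠ 0 →
      deriv (fun s => F s * G s) s / (F s * G s) = deriv F s / F s + deriv G s / G s := by
    intro s hs h1 h2
    have e : deriv (fun s => F s * G s) s = deriv F s * G s + F s * deriv G s :=
      deriv_fun_mul (hF.an s hs).differentiableAt (hG.an s hs).differentiableAt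
    rw [e]
    field_simp
  refine ⟨?_, ?_, ?_, ?_, ?_, ?_, ?_, ?_, ?_⟩
  · intro s hs
    exact (hF.an s hs).mul (hG.an s hs)
  · intro s h1 h2 h3
    rw [norm_mul]
    have b1 := hF.growth s h1 h2 h3
    have b2 := hG.growth s h1 h2 h3
    have hx : 1 ≤ Q * s.im := one_le_mul_of_one_le_of_one_le hQ h3
    have hx0 : 0 < Q * s.im := by linarith
    calc ‖F s‖ * ‖G s‖ ≤ (A * (Q * s.im) ^ A) * (A' * (Q * s.im) ^ A') :=
          mul_le_mul b1 b2 (norm_nonneg _) (by positivity)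
      _ = (A * A') * (Q * s.im) ^ (A + A') := by
          rw [Real.rpow_add hx0]
          ring
      _ ≤ (2 * (A * A')) * (Q * s.im) ^ (2 * (A * A')) := by
          refine mul_le_mul (by linarith) ?_ (by positivity) (by positivity)
          exact Real.rpow_le_rpow_of_exponent_le hx hA2
  · intro t ht
    have b1 := hF.lower t ht
    have b2 := hG.lower t ht
    have hA0 : 0 < A := by linarith
    have hA0' : 0 < A' := by linarith
    calc (2 * (A * A'))⁻¹ ≤ (A * A')⁻¹ := by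
          apply inv_anti₀ (by positivity)
          linarith
      _ = A⁻¹ * A'⁻¹ := mul_inv _ _
      _ ≤ ‖F (⟨2, t⟩ : ℂ)‖ * ‖G (⟨2, t⟩ : ℂ)‖ := mul_le_mul b1 b2 (by positivity) (norm_nonneg _)
      _ = ‖F (⟨2, t⟩ : ℂ) * G (⟨2, t⟩ : ℂ)‖ := (norm_mul _ _).symm
  · intro s h1 h2
    exact mul_ne_zero (hF.nzr s h1 h2) (hG.nzr s h1 h2)
  · intro s h1 h2
    exact mul_ne_zero (hF.nzl s h1 h2) (hG.nzl s h1 h2)
  · intro s h1 h2 h3
    have i1 : 0 < (1 - (starRingEnd ℂ) s).im := by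
      simp only [sub_im, one_im, conj_im]
      linarith
    have i2 : 0 < s.im := by linarith
    rw [hfun, analyticOrderAt_mul (hF.an _ i1) (hG.an _ i1),
      analyticOrderAt_mul (hF.an _ i2) (hG.an _ i2), hF.symm s h1 h2 h3, hG.symm s h1 h2 h3]
  · intro n
    have b1 := hF.ha n
    have b2 := hG.ha n
    calc ‖a n + b n‖ ≤ ‖a n‖ + ‖b n‖ := norm_add_le _ _
      _ ≤ (d + d') * ArithmeticFunction.vonMangoldt n := by linarith
  · intro s h1 h2
    have i2 : 0 < s.im := by linarith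
    rw [hld s i2 (hF.nzr s h1.le h2) (hG.nzr s h1.le h2), hF.ld s h1 h2, hG.ld s h1 h2]
    have e : ∀ n : ℕ, (a n + b n) * (n : ℂ) ^ (-s) = a n * (n : ℂ) ^ (-s) + b n * (n : ℂ) ^ (-s) :=
      fun n => add_mul _ _ _
    simp_rw [e]
    rw [(summ_scale hd hF.ha h1).tsum_add (summ_scale hd' hG.ha h1)]
    ring
  · intro s h1 h2 h3 h4
    have i2 : 0 < s.im := by linarith
    have f0 : F s ≠ 0 := left_ne_zero_of_mul h4
    have g0 : G s ≠ 0 := right_ne_zero_of_mul h4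
    have i1 : 1 ≤ (1 - (starRingEnd ℂ) s).im := by
      simp only [sub_im, one_im, conj_im]
      linarith
    have key : ∀ {e B P : ℝ} {H : ℂ → ℂ} {c : ℕ → ℂ}, GoodD e B P H c → H s ≠ 0 →
        H (1 - (starRingEnd ℂ) s) ≠ 0 := by
      intro e B P H c hH h0
      rcases le_or_gt s.re 0 with hr | hr
      · apply hH.nzr _ _ i1
        simp only [sub_re, one_re, conj_re]
        linarith
      · have hre : s.re < 1 := by linarith
        have := hH.symm s hr hre h3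
        intro hz
        have z1 : analyticOrderAt H (1 - (starRingEnd ℂ) s) ≠ 0 := by
          rw [Ne, (hH.an _ (by linarith)).analyticOrderAt_eq_zero]
          simpa using hz
        have z2 : analyticOrderAt H s = 0 := (hH.an _ i2).analyticOrderAt_eq_zero.2 h0
        exact z1 (this.trans z2)
    have f1 := key hF f0
    have g1 := key hG g0
    rw [hld s i2 f0 g0, hld _ (by linarith) f1 g1, map_add]
    have b1 := hF.left s h1 h2 h3 f0
    have b2 := hG.left s h1 h2 h3 g0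
    have e1 : (((d + d') * Real.log (Q * s.im) : ℝ) : ℂ) =
        ((d * Real.log (Q * s.im) : ℝ) : ℂ) + ((d' * Real.log (Q * s.im) : ℝ) : ℂ) := by
      rw [← Complex.ofReal_add]
      congr 1
      ring
    rw [e1]
    calc _ = ‖(deriv F s / F s + ((d * Real.log (Q * s.im) : ℝ) : ℂ) +
          (starRingEnd ℂ) (deriv F (1 - (starRingEnd ℂ) s) / F (1 - (starRingEnd ℂ) s))) +
          (deriv G s / G s + ((d' * Real.log (Q * s.im) : ℝ) : ℂ) +
          (starRingEnd ℂ) (deriv G (1 - (starRingEnd ℂ) s) / G (1 - (starRingEnd ℂ) s)))‖ := by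
          congr 1
          ring
      _ ≤ A + A' := (norm_add_le _ _).trans (add_le_add b1 b2)
      _ ≤ 2 * (A * A') := hA2

/-- change of the conductor by a factor -/
theorem rescaleD {d B Q R : ℝ} {F : ℂ → ℂ} {a : ℕ → ℂ} (hd : 1 ≤ d) (hB : 1 ≤ B) (hQ : 1 ≤ Q) (hR : 1 ≤ R)
    (h : GoodD d B (R * Q) F a) : GoodD d (B * R ^ B + d * R) Q F a := by
  have h2B : (1 : ℝ) ≤ R ^ B := Real.one_le_rpow hR (by linarith)
  have hdR : 0 < d * R := by positivity
  have hBB : B ≤ B * R ^ B := by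
    calc B = B * 1 := (mul_one B).symm
      _ ≤ B * R ^ B := mul_le_mul_of_nonneg_left h2B (by linarith)
  refine ⟨h.an, ?_, ?_, h.nzr, h.nzl, h.symm, h.ha, h.ld, ?_⟩
  · intro s h1 h2 h3
    have hx : 1 ≤ Q * s.im := one_le_mul_of_one_le_of_one_le hQ h3
    have hx0 : 0 ≤ Q * s.im := by linarith
    have e1 : (R * Q * s.im) ^ B = R ^ B * (Q * s.im) ^ B := by
      rw [show R * Q * s.im = R * (Q * s.im) by ring, Real.mul_rpow (by linarith) hx0]
    have e2 : (Q * s.im) ^ B ≤ (Q * s.im) ^ (B * R ^ B + d * R) :=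
      Real.rpow_le_rpow_of_exponent_le hx (by linarith)
    have e3 : 0 ≤ (Q * s.im) ^ (B * R ^ B + d * R) := by positivity
    calc ‖F s‖ ≤ B * (R * Q * s.im) ^ B := h.growth s h1 h2 h3
      _ = (B * R ^ B) * (Q * s.im) ^ B := by rw [e1]; ring
      _ ≤ (B * R ^ B + d * R) * (Q * s.im) ^ (B * R ^ B + d * R) := by
          refine mul_le_mul (by linarith) e2 (by positivity) (by positivity)
  · intro t ht
    refine le_trans ?_ (h.lower t ht)
    exact inv_anti₀ (by linarith) (by linarith)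
  · intro s h1 h2 h3 h4
    have b := h.left s h1 h2 h3 h4
    have hQs : 0 < Q * s.im := by
      have : 1 ≤ Q * s.im := one_le_mul_of_one_le_of_one_le hQ h3
      linarith
    have e1 : ((d * Real.log (R * Q * s.im) : ℝ) : ℂ) =
        ((d * Real.log (Q * s.im) : ℝ) : ℂ) + ((d * Real.log R : ℝ) : ℂ) := by
      rw [← Complex.ofReal_add]
      congr 1
      rw [show R * Q * s.im = R * (Q * s.im) by ring, Real.log_mul (by linarith) hQs.ne']
      ring
    rw [e1] at b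
    have hl : ‖((d * Real.log R : ℝ) : ℂ)‖ ≤ d * R := by
      have h0 : 0 ≤ Real.log R := Real.log_nonneg hR
      rw [Complex.norm_real, Real.norm_of_nonneg (by positivity)]
      have := Real.log_le_sub_one_of_pos (show 0 < R by linarith)
      exact mul_le_mul_of_nonneg_left (by linarith) (by linarith)
    calc _ = ‖(deriv F s / F s + (((d * Real.log (Q * s.im) : ℝ) : ℂ) +
          ((d * Real.log R : ℝ) : ℂ)) + (starRingEnd ℂ) (deriv F (1 - (starRingEnd ℂ) s) /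
          F (1 - (starRingEnd ℂ) s))) - ((d * Real.log R : ℝ) : ℂ)‖ := by
          congr 1
          ring
      _ ≤ B + d * R := (norm_sub_le _ _).trans (add_le_add b hl)
      _ ≤ B * R ^ B + d * R := by linarith

section many

variable {f : ℕ → ℕ} (ψ : ∀ i, DirichletCharacter ℂ (f i)) (α : ℕ → ℝ)

/-- the `i`-th function `L(s + i α_i, χ ψ_i)` -/
noncomputable def G (i q : ℕ) (χ : DirichletCharacter ℂ q) : ℂ → ℂ := sh (α i) (Lt (ψ i) q χ)

/-- the coefficients -/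
noncomputable def uc (i n : ℕ) : ℂ := ψ i (n : ZMod (f i)) * ni (α i) n

/-- the product -/
noncomputable def P (k q : ℕ) (χ : DirichletCharacter ℂ q) : ℂ → ℂ := fun s => ∏ i ∈ Finset.range k, G ψ α i q χ s

/-- the coefficients of the product -/
noncomputable def cP (k n : ℕ) : ℂ := ∑ i ∈ Finset.range k, uc ψ α i n

theorem G_good [∀ i, NeZero (f i)] (hψ : ∀ i, (ψ i).IsPrimitive) (hα : ∀ i, 0 ≤ α i) (i : ℕ) :
    ∃ A : ℝ, 1 ≤ A ∧ ∀ (q : ℕ) (χ : DirichletCharacter ℂ q), 1 ≤ q → Nat.Coprime q (f i) → χ.IsPrimitive →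
      GoodD 1 A q (G ψ α i q χ) (fun n => χ (n : ZMod q) * uc ψ α i n * (ArithmeticFunction.vonMangoldt n : ℂ)) := by
  obtain ⟨A, hA, h⟩ := good_tw
  have hfi : (1 : ℝ) ≤ f i := by exact_mod_cast (NeZero.one_le : 1 ≤ f i)
  have ha := hα i
  refine ⟨(A + α i) * ((1 + α i) * f i) ^ (A + α i) + 1 * ((1 + α i) * f i), ?_, fun q χ hq hc hχ => ?_⟩
  · have h1 : 1 ≤ (1 + α i) * f i := one_le_mul_of_one_le_of_one_le (by linarith) hfi
    have h2 : 0 ≤ (A + α i) * ((1 + α i) * f i) ^ (A + α i) := by positivity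
    linarith
  · have q1 : (1 : ℝ) ≤ q := by exact_mod_cast hq
    have k1 : (1 : ℝ) ≤ (q : ℝ) * f i := one_le_mul_of_one_le_of_one_le q1 hfi
    have h1 := goodU_shift hA k1 (h (f i) (ψ i) (hψ i) q χ hq hc hχ) (α i) ha
    have h2 := U_to_D h1
    have e1 : (1 + α i) * ((q : ℝ) * f i) = ((1 + α i) * f i) * q := by ring
    rw [e1] at h2
    have h3 := rescaleD le_rfl (by linarith : 1 ≤ A + α i) q1
      (one_le_mul_of_one_le_of_one_le (by linarith) hfi : 1 ≤ (1 + α i) * f i) h2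
    have e2 : (fun n : ℕ => χ (n : ZMod q) * ψ i (n : ZMod (f i)) * (ArithmeticFunction.vonMangoldt n : ℂ) * ni (α i) n) =
        (fun n : ℕ => χ (n : ZMod q) * uc ψ α i n * (ArithmeticFunction.vonMangoldt n : ℂ)) := by
      funext n
      unfold uc
      ring
    rw [e2] at h3
    exact h3

theorem P_good [∀ i, NeZero (f i)] (hψ : ∀ i, (ψ i).IsPrimitive) (hα : ∀ i, 0 ≤ α i) (k : ℕ) (hk : 1 ≤ k) :
    ∃ A : ℝ, 1 ≤ A ∧ ∀ (q : ℕ) (χ : DirichletCharacter ℂ q), 1 ≤ q → (∀ i < k, Nat.Coprime q (f i)) → χ.IsPrimitive →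
      GoodD k A q (P ψ α k q χ) (fun n => χ (n : ZMod q) * cP ψ α k n * (ArithmeticFunction.vonMangoldt n : ℂ)) := by
  induction k, hk using Nat.le_induction with
  | base =>
    obtain ⟨A, hA, h⟩ := G_good ψ α hψ hα 0
    refine ⟨A, hA, fun q χ hq hc hχ => ?_⟩
    have h1 := h q χ hq (hc 0 one_pos) hχ
    have e1 : P ψ α 1 q χ = G ψ α 0 q χ := by
      funext s
      unfold P
      rw [Finset.prod_range_one]
    have e2 : ∀ n, cP ψ α 1 n = uc ψ α 0 n := by
      intro n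
      unfold cP
      rw [Finset.sum_range_one]
    rw [e1, Nat.cast_one]
    simp_rw [e2]
    exact h1
  | succ k hk ih =>
    obtain ⟨A, hA, h⟩ := ih
    obtain ⟨A', hA', h'⟩ := G_good ψ α hψ hα k
    refine ⟨2 * (A * A'), ?_, fun q χ hq hc hχ => ?_⟩
    · have : 1 ≤ A * A' := one_le_mul_of_one_le_of_one_le hA hA'
      linarith
    · have q1 : (1 : ℝ) ≤ q := by exact_mod_cast hq
      have h1 := h q χ hq (fun i hi => hc i (by omega)) hχ
      have h2 := h' q χ hq (hc k (by omega)) hχ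
      have h3 := goodD_mulD (by exact_mod_cast hk) le_rfl hA hA' q1 h1 h2
      have e1 : (fun s => P ψ α k q χ s * G ψ α k q χ s) = P ψ α (k + 1) q χ := by
        funext s
        unfold P
        rw [Finset.prod_range_succ]
      have e2 : (fun n : ℕ => χ (n : ZMod q) * cP ψ α k n * (ArithmeticFunction.vonMangoldt n : ℂ) +
          χ (n : ZMod q) * uc ψ α k n * (ArithmeticFunction.vonMangoldt n : ℂ)) =
          (fun n : ℕ => χ (n : ZMod q) * cP ψ α (k + 1) n * (ArithmeticFunction.vonMangoldt n : ℂ)) := by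
        funext n
        unfold cP
        rw [Finset.sum_range_succ]
        ring
      rw [e1, e2] at h3
      push_cast
      exact h3

lemma uc_norm (i n : ℕ) : ‖uc ψ α i n‖ ≤ 1 := by
  unfold uc
  rw [norm_mul, ni_norm, mul_one]
  exact DirichletCharacter.norm_le_one _ _

lemma cP_norm (k n : ℕ) : ‖cP ψ α k n‖ ≤ k := by
  unfold cP
  refine (norm_sum_le _ _).trans ?_
  calc ∑ i ∈ Finset.range k, ‖uc ψ α i n‖ ≤ ∑ _i ∈ Finset.range k, (1 : ℝ) :=
        Finset.sum_le_sum fun i _ => uc_norm ψ α i n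
    _ = k := by simp

theorem P_TwD [∀ i, NeZero (f i)] (hψ : ∀ i, (ψ i).IsPrimitive) (hα : ∀ i, 0 ≤ α i) (k : ℕ) (hk : 1 ≤ k) (M : ℕ)
    (hM : ∀ q : ℕ, Nat.Coprime q M → ∀ i < k, Nat.Coprime q (f i)) :
    ∃ A : ℝ, 1 ≤ A ∧ TwD k A M (cP ψ α k) (P ψ α k) := by
  obtain ⟨A, hA, h⟩ := P_good ψ α hψ hα k hk
  exact ⟨A, hA, cP_norm ψ α k, fun q χ hq hc hχ => h q χ (by omega) (hM q hc) hχ⟩

end many

/-! ### the zeros of the product -/

lemma ordD {d A Q : ℝ} {F : ℂ → ℂ} {a : ℕ → ℂ} (hA : 1 ≤ A) (hF : GoodD d A Q F a) {s : ℂ} (hs : 0 < s.im) :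
    analyticOrderAt F s ≠ ⊤ := by
  have hU : IsPreconnected {s : ℂ | 0 < s.im} := (convex_halfSpace_im_gt 0).isPreconnected
  have h3 := hF.lower 1 le_rfl
  have hA0 : 0 < A⁻¹ := by positivity
  have h2 : F ⟨2, 1⟩ ≠ 0 := norm_pos_iff.1 (hA0.trans_le h3)
  exact H370.Loc.order_ne_top (f := F) (K := {s : ℂ | 0 < s.im}) hU (fun s hs => hF.an s hs)
    (c := ⟨2, 1⟩) (by simp only [Set.mem_ofPred_eq]; norm_num) h2 hs

lemma mult_zero {d A Q : ℝ} {F : ℂ → ℂ} {a : ℕ → ℂ} (hF : GoodD d A Q F a) {s : ℂ} (hs : 0 < s.im) (h : F s ≠ 0) :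
    mult F s = 0 := by
  unfold mult analyticOrderNatAt
  rw [(hF.an s hs).analyticOrderAt_eq_zero.2 h]
  rfl

/-- zeros of a product -/
theorem zset_prod (k : ℕ) (H : ℕ → ℂ → ℂ) (T1 T2 : ℝ) :
    zset (fun s => ∏ i ∈ Finset.range k, H i s) T1 T2 = ⋃ i ∈ Finset.range k, zset (H i) T1 T2 := by
  ext s
  simp only [zset, Set.mem_ofPred_eq, Set.mem_iUnion, Finset.prod_eq_zero_iff]
  constructor
  · rintro ⟨h1, h2, h3, h4, i, hi, h5⟩
    exact ⟨i, hi, h1, h2, h3, h4, h5⟩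
  · rintro ⟨i, hi, h1, h2, h3, h4, h5⟩
    exact ⟨h1, h2, h3, h4, i, hi, h5⟩

theorem mult_prod (k : ℕ) (H : ℕ → ℂ → ℂ) (a : ℕ → ℕ → ℂ) (Q : ℝ) (A : ℕ → ℝ) (hA : ∀ i, 1 ≤ A i)
    (hH : ∀ i < k, GoodD 1 (A i) Q (H i) (a i)) {s : ℂ} (hs : 0 < s.im) :
    AnalyticAt ℂ (fun s => ∏ i ∈ Finset.range k, H i s) s ∧
    analyticOrderAt (fun s => ∏ i ∈ Finset.range k, H i s) s ≠ ⊤ ∧
    mult (fun s => ∏ i ∈ Finset.range k, H i s) s = ∑ i ∈ Finset.range k, mult (H i) s := by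
  induction k with
  | zero =>
    simp only [Finset.prod_range_zero, Finset.sum_range_zero]
    have h0 : analyticOrderAt (fun _ : ℂ => (1 : ℂ)) s = 0 :=
      (analyticAt_const (v := (1 : ℂ))).analyticOrderAt_eq_zero.2 one_ne_zero
    refine ⟨analyticAt_const, ?_, ?_⟩
    · rw [h0]
      exact ENat.zero_ne_top
    · unfold mult analyticOrderNatAt
      rw [h0]
      rfl
  | succ k ih =>
    obtain ⟨h1, h2, h3⟩ := ih fun i hi => hH i (by omega)
    have hk := hH k (by omega)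
    have e : (fun s => ∏ i ∈ Finset.range (k + 1), H i s) = (fun s => ∏ i ∈ Finset.range k, H i s) * H k := by
      funext s
      rw [Finset.prod_range_succ]
      rfl
    have o1 := ordD (hA k) hk hs
    rw [e, Finset.sum_range_succ]
    refine ⟨h1.mul (hk.an s hs), ?_, ?_⟩
    · rw [analyticOrderAt_mul h1 (hk.an s hs)]
      exact WithTop.add_ne_top.2 ⟨h2, o1⟩
    · have h4 : mult ((fun s => ∏ i ∈ Finset.range k, H i s) * H k) s =
          mult (fun s => ∏ i ∈ Finset.range k, H i s) s + mult (H k) s := by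
        unfold mult
        exact analyticOrderNatAt_mul h1 (hk.an s hs) h2 o1
      rw [h4, h3]

theorem NN_prod (k : ℕ) (H : ℕ → ℂ → ℂ) (a : ℕ → ℕ → ℂ) (Q : ℝ) (hQ : 1 ≤ Q) (A : ℕ → ℝ) (hA : ∀ i, 1 ≤ A i)
    (hH : ∀ i < k, GoodD 1 (A i) Q (H i) (a i)) (T1 T2 : ℝ) (hT : 1 ≤ T1) :
    NN (fun s => ∏ i ∈ Finset.range k, H i s) T1 T2 = ∑ i ∈ Finset.range k, NN (H i) T1 T2 := by
  classical
  have hfi : ∀ i < k, (zset (H i) T1 T2).Finite := fun i hi => zset_finite_D (hA i) hQ (hH i hi) T1 T2 hT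
  have hfin : (zset (fun s => ∏ i ∈ Finset.range k, H i s) T1 T2).Finite := by
    rw [zset_prod]
    exact Set.Finite.biUnion (Finset.range k).finite_toSet fun i hi => hfi i (Finset.mem_range.1 hi)
  have h1 : ∀ i ∈ Finset.range k, NN (H i) T1 T2 = ∑ s ∈ hfin.toFinset, mult (H i) s := by
    intro i hi
    have hi' := Finset.mem_range.1 hi
    unfold NN
    rw [finsum_mem_eq_finite_toFinset_sum _ (hfi i hi')]
    refine Finset.sum_subset (fun s hs => ?_) (fun s hs hs' => ?_)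
    · rw [Set.Finite.mem_toFinset] at hs ⊢
      rw [zset_prod]
      exact Set.mem_biUnion hi hs
    · rw [Set.Finite.mem_toFinset] at hs hs'
      apply mult_zero (hH i hi') (by linarith [hs.2.2.1])
      intro h
      exact hs' ⟨hs.1, hs.2.1, hs.2.2.1, hs.2.2.2.1, h⟩
  rw [Finset.sum_congr rfl h1, Finset.sum_comm]
  unfold NN
  rw [finsum_mem_eq_finite_toFinset_sum _ hfin]
  refine Finset.sum_congr rfl fun s hs => ?_
  rw [Set.Finite.mem_toFinset] at hs
  exact (mult_prod k H a Q A hA hH (by linarith [hs.2.2.1])).2.2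

end Pool.Agent.T2H62.MQ
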