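import Pool.Agent.T2H62.MQ.C

/-!
# The mean square of the coefficients of the product
-/

open Complex Filter Topology Set MeasureTheory

set_option maxHeartbeats 4000000

namespace Pool.Agent.T2H62.MQ

open H385
open Pool.Agent.H304R2.EC (npr npr_nonneg npr_summable)
open Pool.Agent.T2H25.ZR (sh ni ni_norm Lt sel_real quo quo_apply norm_sq_char sum_char noncop)

/-- from `∑ Λ g / n = log N + O(1)` to `∑ Λ² g / n = (log N)² / 2 + O(log N)` -/
lemma sel_natB (B : ℝ) (hB : 0 ≤ B) (g : ℕ → ℝ) (hf0 : ∀ n, 0 ≤ g n) (hf4 : ∀ n, g n ≤ B)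
    (h1f : ∃ C : ℝ, 0 ≤ C ∧ ∀ N : ℕ, 1 ≤ N →
    |∑ n ∈ Finset.Icc 1 N, ArithmeticFunction.vonMangoldt n * g n / n - Real.log N| ≤ C) :
    ∃ C : ℝ, 0 ≤ C ∧ ∀ N : ℕ, 1 ≤ N →
    |∑ n ∈ Finset.Icc 1 N, (ArithmeticFunction.vonMangoldt n) ^ 2 * g n / n -
      (Real.log N) ^ 2 / 2| ≤ C * Real.log N := by
  obtain ⟨C, hC, h⟩ := h1f
  set S : ℝ := ∑' n : ℕ, Pool.Agent.H304R2.EC.npr n with hS
  have hS0 : 0 ≤ S := tsum_nonneg Pool.Agent.H304R2.EC.npr_nonneg
  refine ⟨(1 + C) + C + B * S, by positivity, ?_⟩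
  intro N hN
  have hlog : 0 ≤ Real.log N := Real.log_natCast_nonneg N
  have h1 := H385.mert_abel (fun n => ArithmeticFunction.vonMangoldt n * g n / n) C 1 hC
    zero_le_one h (fun s => s) continuous_id (fun x y _ _ => by rw [one_mul]) N hN
  rw [integral_id] at h1
  have h2 : |(∑ n ∈ Finset.Icc 1 N, ArithmeticFunction.vonMangoldt n * g n / n - Real.log N) *
      Real.log N| ≤ C * Real.log N := by
    rw [abs_mul, abs_of_nonneg hlog]
    exact mul_le_mul_of_nonneg_right (h N hN) hlog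
  have h3 : |∑ n ∈ Finset.Icc 1 N, (ArithmeticFunction.vonMangoldt n) ^ 2 * g n / n -
      ∑ n ∈ Finset.Icc 1 N, ArithmeticFunction.vonMangoldt n * g n / n * Real.log n| ≤
      B * S * Real.log N := by
    rw [← Finset.sum_sub_distrib]
    calc _ ≤ ∑ n ∈ Finset.Icc 1 N, |(ArithmeticFunction.vonMangoldt n) ^ 2 * g n / n -
          ArithmeticFunction.vonMangoldt n * g n / n * Real.log n| :=
          Finset.abs_sum_le_sum_abs _ _
      _ ≤ ∑ n ∈ Finset.Icc 1 N, B * Real.log N * Pool.Agent.H304R2.EC.npr n := by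
          apply Finset.sum_le_sum
          intro n hn
          have hn1 : 1 ≤ n := (Finset.mem_Icc.mp hn).1
          have hnN : n ≤ N := (Finset.mem_Icc.mp hn).2
          have hn0 : (0 : ℝ) < n := by exact_mod_cast hn1
          have hΛ : 0 ≤ ArithmeticFunction.vonMangoldt n := ArithmeticFunction.vonMangoldt_nonneg
          have hΛ2 : ArithmeticFunction.vonMangoldt n ≤ Real.log n :=
            ArithmeticFunction.vonMangoldt_le_log
          have hlN : Real.log n ≤ Real.log N := Real.log_le_log hn0 (by exact_mod_cast hnN)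
          have hrew : (ArithmeticFunction.vonMangoldt n) ^ 2 * g n / n -
              ArithmeticFunction.vonMangoldt n * g n / n * Real.log n =
              -(ArithmeticFunction.vonMangoldt n / n * (g n *
                (Real.log n - ArithmeticFunction.vonMangoldt n))) := by ring
          rw [hrew, abs_neg]
          by_cases hp : n.Prime
          · rw [ArithmeticFunction.vonMangoldt_apply_prime hp, sub_self, mul_zero, mul_zero,
              abs_zero]
            have := Pool.Agent.H304R2.EC.npr_nonneg n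
            positivity
          · have e3 : Pool.Agent.H304R2.EC.npr n = ArithmeticFunction.vonMangoldt n / n := by
              unfold Pool.Agent.H304R2.EC.npr; rw [if_neg hp]
            rw [e3, abs_of_nonneg (mul_nonneg (div_nonneg hΛ hn0.le)
              (mul_nonneg (hf0 n) (by linarith))), mul_comm]
            apply mul_le_mul_of_nonneg_right _ (div_nonneg hΛ hn0.le)
            apply mul_le_mul (hf4 n) (by linarith) (by linarith) hB
      _ = B * Real.log N * ∑ n ∈ Finset.Icc 1 N, Pool.Agent.H304R2.EC.npr n := by rw [Finset.mul_sum]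
      _ ≤ B * Real.log N * S := by
          apply mul_le_mul_of_nonneg_left _ (by positivity)
          exact Pool.Agent.H304R2.EC.npr_summable.sum_le_tsum _ (fun n _ => Pool.Agent.H304R2.EC.npr_nonneg n)
      _ = B * S * Real.log N := by ring
  rw [abs_le] at h1 h2 h3 ⊢
  constructor <;> nlinarith [h1.1, h1.2, h2.1, h2.2, h3.1, h3.2]

section many

variable {f : ℕ → ℕ} (ψ : ∀ i, DirichletCharacter ℂ (f i)) (α : ℕ → ℝ)

/-- the normalised coefficients -/
noncomputable def cP' (k n : ℕ) : ℂ := ((Real.sqrt k : ℝ) : ℂ)⁻¹ * cP ψ α k n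

lemma cP_eq (k : ℕ) (hk : 1 ≤ k) (n : ℕ) : cP ψ α k n = ((Real.sqrt k : ℝ) : ℂ) * cP' ψ α k n := by
  unfold cP'
  have hk0 : (0 : ℝ) < k := by exact_mod_cast hk
  have h : ((Real.sqrt k : ℝ) : ℂ) ≠ 0 := by
    rw [Complex.ofReal_ne_zero]
    positivity
  rw [← mul_assoc, mul_inv_cancel₀ h, one_mul]

lemma cP'_sq (k : ℕ) (n : ℕ) : ‖cP' ψ α k n‖ ^ 2 = ‖cP ψ α k n‖ ^ 2 / k := by
  unfold cP'
  rw [norm_mul, mul_pow, norm_inv, Complex.norm_real, Real.norm_of_nonneg (Real.sqrt_nonneg _),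
    inv_pow, Real.sq_sqrt (Nat.cast_nonneg k)]
  ring

lemma cP'_sq_le (k : ℕ) (hk : 1 ≤ k) (n : ℕ) : ‖cP' ψ α k n‖ ^ 2 ≤ k := by
  have hk0 : (0 : ℝ) < k := by exact_mod_cast hk
  rw [cP'_sq, div_le_iff₀ hk0]
  have h1 := cP_norm ψ α k n
  calc ‖cP ψ α k n‖ ^ 2 ≤ (k : ℝ) ^ 2 := pow_le_pow_left₀ (norm_nonneg _) h1 2
    _ = _ := by ring

lemma cP'_le (k : ℕ) (hk : 1 ≤ k) (n : ℕ) : ‖cP' ψ α k n‖ ≤ k := by
  have hk1 : (1 : ℝ) ≤ k := by exact_mod_cast hk
  apply le_of_sq_le_sq _ (by linarith)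
  refine (cP'_sq_le ψ α k hk n).trans ?_
  nlinarith

/-- the real part of the product of two coefficients -/
noncomputable def cr (i j n : ℕ) : ℝ := ((starRingEnd ℂ) (uc ψ α i n) * uc ψ α j n).re

lemma ni_quot (a b : ℝ) (n : ℕ) : (starRingEnd ℂ) (ni a n) * ni b n = ni (b - a) n := by
  unfold ni
  rw [← Complex.exp_conj, ← Complex.exp_add]
  congr 1
  simp only [map_mul, Complex.conj_ofReal, Complex.conj_I]
  push_cast
  ring

lemma cr_ne (i j n : ℕ) : cr ψ α i j n = (quo (ψ i) (ψ j) (n : ZMod (f i * f j)) * ni (α j - α i) n).re := by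
  unfold cr uc
  rw [quo_apply, ← ni_quot, map_mul]
  congr 1
  ring

lemma cr_self [∀ i, NeZero (f i)] (i n : ℕ) : cr ψ α i i n = if Nat.Coprime n (f i) then 1 else 0 := by
  unfold cr
  rw [mul_comm, Complex.mul_conj, Complex.normSq_eq_norm_sq, Complex.ofReal_re]
  unfold uc
  rw [norm_mul, ni_norm, mul_one]
  exact norm_sq_char (ψ i) n

lemma cP_sq (k n : ℕ) : ‖cP ψ α k n‖ ^ 2 = ∑ i ∈ Finset.range k, ∑ j ∈ Finset.range k, cr ψ α i j n := by
  have h1 : ((‖cP ψ α k n‖ ^ 2 : ℝ) : ℂ) = (starRingEnd ℂ) (cP ψ α k n) * cP ψ α k n := by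
    rw [← Complex.normSq_eq_norm_sq, Complex.normSq_eq_conj_mul_self]
  have h2 : ‖cP ψ α k n‖ ^ 2 = ((starRingEnd ℂ) (cP ψ α k n) * cP ψ α k n).re := by
    rw [← h1, Complex.ofReal_re]
  rw [h2]
  unfold cP
  rw [map_sum, Finset.sum_mul_sum, Complex.re_sum]
  refine Finset.sum_congr rfl fun i _ => ?_
  rw [Complex.re_sum]
  rfl

theorem selb_P [∀ i, NeZero (f i)] (k : ℕ) (hk : 1 ≤ k)
    (hne : ∀ i < k, ∀ j < k, i ≠ j → quo (ψ i) (ψ j) ≠ 1 ∨ α j - α i ≠ 0) :
    ∃ C : ℝ, Selb (cP' ψ α k) C := by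
  classical
  have hk0 : (0 : ℝ) < k := by exact_mod_cast hk
  -- each pair
  have hpair : ∀ i j : ℕ, ∃ C : ℝ, 0 ≤ C ∧ (i < k → j < k → ∀ N : ℕ, 1 ≤ N →
      |∑ n ∈ Finset.Icc 1 N, ArithmeticFunction.vonMangoldt n * cr ψ α i j n / n -
        (if i = j then Real.log N else 0)| ≤ C) := by
    intro i j
    by_cases hij : i = j
    · subst hij
      obtain ⟨D1, hD1, hn1⟩ := noncop (f i) (NeZero.ne (f i))
      refine ⟨6 + D1, by positivity, fun _ _ N hN => ?_⟩
      have hM1 := H370.nt_mertens_lower N hN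
      have hM2 := H370.nt_mertens_upper N hN
      have e : ∑ n ∈ Finset.Icc 1 N, ArithmeticFunction.vonMangoldt n * cr ψ α i i n / n =
          ∑ n ∈ Finset.Icc 1 N, ArithmeticFunction.vonMangoldt n / n -
          (∑ n ∈ Finset.Icc 1 N, (if Nat.Coprime n (f i) then 0 else
            ArithmeticFunction.vonMangoldt n / n)) := by
        rw [← Finset.sum_sub_distrib]
        refine Finset.sum_congr rfl fun n _ => ?_
        rw [cr_self]
        split_ifs <;> ring
      have a1 := hn1 N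
      have b1 : 0 ≤ ∑ n ∈ Finset.Icc 1 N, (if Nat.Coprime n (f i) then 0 else
            ArithmeticFunction.vonMangoldt n / n) := by
        refine Finset.sum_nonneg fun n _ => ?_
        split_ifs
        · exact le_rfl
        · exact div_nonneg ArithmeticFunction.vonMangoldt_nonneg (Nat.cast_nonneg n)
      rw [e, if_pos rfl, abs_le]
      constructor <;> linarith
    · by_cases hlt : i < k ∧ j < k
      · haveI : NeZero (f i * f j) := ⟨Nat.mul_ne_zero (NeZero.ne (f i)) (NeZero.ne (f j))⟩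
        obtain ⟨C0, hC0, hc⟩ := sum_char (f i * f j) (quo (ψ i) (ψ j)) (α j - α i) (hne i hlt.1 j hlt.2 hij)
        refine ⟨C0, hC0, fun _ _ N hN => ?_⟩
        rw [if_neg hij, sub_zero]
        have a3 := (Complex.abs_re_le_norm _).trans (hc N)
        refine le_trans (le_of_eq ?_) a3
        congr 1
        rw [Complex.re_sum]
        refine Finset.sum_congr rfl fun n _ => ?_
        rw [cr_ne]
        have e2 : (ArithmeticFunction.vonMangoldt n : ℂ) * quo (ψ i) (ψ j) (n : ZMod (f i * f j)) *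
          (ni (α j - α i) n / n) = ((ArithmeticFunction.vonMangoldt n / n : ℝ) : ℂ) *
            (quo (ψ i) (ψ j) (n : ZMod (f i * f j)) * ni (α j - α i) n) := by
          push_cast
          ring
        rw [e2, Complex.re_ofReal_mul]
        ring
      · exact ⟨0, le_rfl, fun h1 h2 => absurd ⟨h1, h2⟩ hlt⟩
  choose C hC0 hC using hpair
  obtain ⟨g, hg⟩ : ∃ g : ℕ → ℝ, g = fun n => ‖cP' ψ α k n‖ ^ 2 := ⟨_, rfl⟩
  have h0 : ∀ n, 0 ≤ g n := fun n => by rw [hg]; positivity
  have h4 : ∀ n, g n ≤ k := by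
    intro n
    rw [hg]
    exact cP'_sq_le ψ α k hk n
  have hone : ∃ C : ℝ, 0 ≤ C ∧ ∀ N : ℕ, 1 ≤ N →
    |∑ n ∈ Finset.Icc 1 N, ArithmeticFunction.vonMangoldt n * g n / n - Real.log N| ≤ C := by
    refine ⟨(∑ i ∈ Finset.range k, ∑ j ∈ Finset.range k, C i j) / k,
      div_nonneg (Finset.sum_nonneg fun i _ => Finset.sum_nonneg fun j _ => hC0 i j) hk0.le, fun N hN => ?_⟩
    have e1 : ∑ n ∈ Finset.Icc 1 N, ArithmeticFunction.vonMangoldt n * g n / n =
        (∑ i ∈ Finset.range k, ∑ j ∈ Finset.range k,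
          ∑ n ∈ Finset.Icc 1 N, ArithmeticFunction.vonMangoldt n * cr ψ α i j n / n) / k := by
      have e2 : ∀ n, ArithmeticFunction.vonMangoldt n * g n / n =
          (∑ i ∈ Finset.range k, ∑ j ∈ Finset.range k, ArithmeticFunction.vonMangoldt n * cr ψ α i j n / n) / k := by
        intro n
        rw [hg]
        simp only
        rw [cP'_sq, cP_sq]
        simp_rw [← Finset.sum_div, ← Finset.mul_sum]
        ring
      simp_rw [e2]
      rw [← Finset.sum_div, Finset.sum_comm]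
      congr 1
      refine Finset.sum_congr rfl fun i _ => ?_
      rw [Finset.sum_comm]
    have e3 : Real.log N = (∑ i ∈ Finset.range k, ∑ j ∈ Finset.range k, (if i = j then Real.log (N : ℝ) else 0)) / k := by
      have : ∑ i ∈ Finset.range k, ∑ j ∈ Finset.range k, (if i = j then Real.log (N : ℝ) else 0) = k * Real.log N := by
        have e4 : ∀ i ∈ Finset.range k, ∑ j ∈ Finset.range k, (if i = j then Real.log (N : ℝ) else 0) = Real.log N := by
          intro i hi
          rw [Finset.sum_ite_eq, if_pos hi]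
        rw [Finset.sum_congr rfl e4, Finset.sum_const, Finset.card_range, nsmul_eq_mul]
      rw [this]
      field_simp
    rw [e1]
    nth_rewrite 1 [e3]
    rw [← sub_div, abs_div, abs_of_pos hk0]
    apply div_le_div_of_nonneg_right _ hk0.le
    rw [← Finset.sum_sub_distrib]
    refine (Finset.abs_sum_le_sum_abs _ _).trans (Finset.sum_le_sum fun i hi => ?_)
    rw [← Finset.sum_sub_distrib]
    refine (Finset.abs_sum_le_sum_abs _ _).trans (Finset.sum_le_sum fun j hj => ?_)
    exact hC i j (Finset.mem_range.1 hi) (Finset.mem_range.1 hj) N hN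
  obtain ⟨C', hC', hh⟩ := sel_real g (sel_natB k hk0.le g h0 h4 hone)
  refine ⟨C', fun x hx => ?_⟩
  have h1 := hh x hx
  refine le_trans (le_of_eq ?_) h1
  rw [hg]
  rfl

end many

end Pool.Agent.T2H62.MQ
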