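import Pool.Agent.T2H62.MQ.B
import Pool.Agent.T2H62.MQ.D
import Pool.Agent.T2H25.ZR.A5

/-!
# The number of the distinct zeros of `k` L-functions
-/

open Complex Filter Topology Set MeasureTheory
open H370 (zset mult NN Nd Ns)

set_option maxHeartbeats 4000000

namespace Pool.Agent.T2H62.MQ

open H385
open Pool.Agent.R321.RG (fam_mul)
open Pool.Agent.T2H25.ZR (sh ni quo Lt)

/-- scaling of the mean square hypothesis by `√k` -/
theorem HYM_scaleK (k : ℕ) (hk : 1 ≤ k) (M : ℕ) (c c' : ℕ → ℂ) (hcc : ∀ n, c n = ((Real.sqrt k : ℝ) : ℂ) * c' n)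
    (γ β e : ℝ) (h : HYM M c' γ β e) : HYM M c γ β (k * e) := by
  have hk1 : (1 : ℝ) ≤ k := by exact_mod_cast hk
  have hk0 : (0 : ℝ) < k := by linarith
  intro ε hε
  obtain ⟨K, η, X0, hK, hη, hX0, hh⟩ := h (ε / k) (by positivity)
  refine ⟨K, η, X0, hK, hη, hX0, ?_⟩
  intro X Y T a1 a2 a3 a4 a5
  obtain ⟨Yf, y1, y2, hy1, hy2, m1, m2, m3, m4, m5⟩ := hh X Y T a1 a2 a3 a4 a5
  refine ⟨fun u => k * Yf u, k * y1, k * y2, by positivity, by positivity, ?_, ?_, ?_, ?_, ?_⟩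
  · intro u hu
    have e1 : ∀ t : ℝ, primFamM M X Y (fun q χ =>
      ‖∑' n : ℕ, (χ (n : ZMod q) * c n * (ArithmeticFunction.vonMangoldt n : ℂ)) *
        ((Real.sqrt n : ℂ)⁻¹ * bt T u t (Real.log n))‖ ^ 2) = k * primFamM M X Y (fun q χ =>
      ‖∑' n : ℕ, (χ (n : ZMod q) * c' n * (ArithmeticFunction.vonMangoldt n : ℂ)) *
        ((Real.sqrt n : ℂ)⁻¹ * bt T u t (Real.log n))‖ ^ 2) := by
      intro t
      rw [← fam_mul]
      congr 1
      funext q χ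
      have e2 : ∀ n : ℕ, (χ (n : ZMod q) * c n * (ArithmeticFunction.vonMangoldt n : ℂ)) *
        ((Real.sqrt n : ℂ)⁻¹ * bt T u t (Real.log n)) = ((Real.sqrt k : ℝ) : ℂ) *
        ((χ (n : ZMod q) * c' n * (ArithmeticFunction.vonMangoldt n : ℂ)) *
        ((Real.sqrt n : ℂ)⁻¹ * bt T u t (Real.log n))) := by
        intro n
        rw [hcc]
        ring
      simp_rw [e2]
      rw [tsum_mul_left, norm_mul, mul_pow, Complex.norm_real,
        Real.norm_of_nonneg (Real.sqrt_nonneg _), Real.sq_sqrt hk0.le]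
    simp_rw [e1]
    rw [integral_const_mul]
    exact mul_le_mul_of_nonneg_left (m1 u hu) hk0.le
  · intro u hu
    have := m2 u hu
    have e1 : T * (k * y1 * (u + 1) + k * y2) = k * (T * (y1 * (u + 1) + y2)) := by ring
    rw [e1]
    exact mul_le_mul_of_nonneg_left this hk0.le
  · exact m3.const_mul _
  · have e1 : ∫ u in (0 : ℝ)..(β * Real.log X), Rw γ (u / (β * Real.log X)) * (k * Yf u) =
        k * ∫ u in (0 : ℝ)..(β * Real.log X), Rw γ (u / (β * Real.log X)) * Yf u := by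
      rw [← intervalIntegral.integral_const_mul]
      congr 1
      funext u
      ring
    rw [e1]
    have e2 : T / (2 * Real.pi) * Real.log X * WM M X Y * (k * e + ε) =
        k * (T / (2 * Real.pi) * Real.log X * WM M X Y * (e + ε / k)) := by
      field_simp
    rw [e2]
    calc _ = k * ((2 / (Real.sqrt Real.pi * (β * Real.log X))) *
          ∫ u in (0 : ℝ)..(β * Real.log X), Rw γ (u / (β * Real.log X)) * Yf u) := by ring
      _ ≤ _ := mul_le_mul_of_nonneg_left m4 hk0.le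
  · rw [Real.sqrt_mul hk0.le, Real.sqrt_mul hk0.le, ← mul_add]
    have h2 : Real.sqrt k ≤ k := by
      rw [Real.sqrt_le_left hk0.le]
      nlinarith
    have h3 : 0 ≤ Real.sqrt y1 + Real.sqrt y2 := by positivity
    calc Real.sqrt k * (Real.sqrt y1 + Real.sqrt y2) ≤ k * (Real.sqrt y1 + Real.sqrt y2) :=
          mul_le_mul_of_nonneg_right h2 h3
      _ ≤ k * (ε / k * Real.log X * Real.sqrt (WM M X Y)) :=
          mul_le_mul_of_nonneg_left m5 hk0.le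
      _ = _ := by field_simp

/-- windows close to the constant one -/
theorem window (θ : ℝ) (h0 : 0 < θ) (h1 : θ ≤ 1) : ∃ γ : ℝ, 0 < γ ∧ γ < Real.pi ∧ Rw γ 0 ≤ 1 + θ ∧
    ∫ α in (0 : ℝ)..1, α * Rw γ α ≤ (1 + θ) / 6 := by
  obtain ⟨x, hx⟩ : ∃ x, x = Real.sqrt θ := ⟨_, rfl⟩
  have hx0 : 0 < x := by rw [hx]; exact Real.sqrt_pos.2 h0
  have hx2 : x ^ 2 = θ := by rw [hx]; exact Real.sq_sqrt h0.le
  have hx1 : x ≤ 1 := by
    rw [hx]
    calc Real.sqrt θ ≤ Real.sqrt 1 := Real.sqrt_le_sqrt h1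
      _ = 1 := Real.sqrt_one
  have hsin : x - x ^ 3 / 4 < Real.sin x := by
    have h1 := Real.sin_gt_sub_cube hx0
    have h2 : 0 < x ^ 3 := by positivity
    linarith
  have hs0 : 0 < Real.sin x := by
    have : x ^ 3 ≤ x := by nlinarith
    linarith
  have hsx : Real.sin x ≤ x := Real.sin_le hx0.le
  obtain ⟨γ, hγ⟩ : ∃ γ, γ = 2 * x := ⟨_, rfl⟩
  have hγ0 : 0 < γ := by rw [hγ]; positivity
  have hhalf : γ / 2 = x := by rw [hγ]; ring
  -- the factor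
  obtain ⟨S, hS⟩ : ∃ S, S = (γ / (2 * Real.sin (γ / 2))) ^ 2 := ⟨_, rfl⟩
  have hS0 : 0 ≤ S := by rw [hS]; positivity
  have hS1 : S ≤ 1 + θ := by
    rw [hS, hhalf, hγ, mul_div_mul_left _ _ (by norm_num : (2 : ℝ) ≠ 0), div_pow, div_le_iff₀ (by positivity)]
    have h2 : (x - x ^ 3 / 4) ^ 2 ≤ Real.sin x ^ 2 := by
      apply pow_le_pow_left₀ _ hsin.le
      nlinarith
    have h3 : (x - x ^ 3 / 4) ^ 2 = θ * (1 - θ / 4) ^ 2 := by
      have : (x - x ^ 3 / 4) ^ 2 = x ^ 2 * (1 - x ^ 2 / 4) ^ 2 := by ring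
      rw [this, hx2]
    rw [h3] at h2
    rw [hx2]
    have h4 : θ ≤ (1 + θ) * (θ * (1 - θ / 4) ^ 2) := by
      have h5 : 1 ≤ (1 + θ) * (1 - θ / 4) ^ 2 := by nlinarith [sq_nonneg θ, mul_pos h0 h0, mul_pos (mul_pos h0 h0) h0]
      nlinarith
    exact h4.trans (mul_le_mul_of_nonneg_left h2 (by linarith))
  have hRw : ∀ α : ℝ, 0 ≤ α → α ≤ 1 → Rw γ α ≤ S * (1 - α) := by
    intro α h2 h3
    unfold Rw
    rw [abs_of_nonneg h2, if_pos h3, ← hS]
    have h4 : (1 - α) * Real.cos (γ * α) ≤ (1 - α) * 1 :=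
      mul_le_mul_of_nonneg_left (Real.cos_le_one _) (by linarith)
    have h5 : Real.sin (γ * (1 - α)) / γ ≤ 1 - α := by
      rw [div_le_iff₀ hγ0]
      have h6 : 0 ≤ γ * (1 - α) := mul_nonneg hγ0.le (by linarith)
      have := Real.sin_le h6
      linarith
    calc S * ((1 - α) * Real.cos (γ * α) + Real.sin (γ * (1 - α)) / γ) / 2 ≤
          S * ((1 - α) * 1 + (1 - α)) / 2 := by
          apply div_le_div_of_nonneg_right _ (by norm_num)
          exact mul_le_mul_of_nonneg_left (add_le_add h4 h5) hS0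
      _ = S * (1 - α) := by ring
  have hγπ : γ < Real.pi := by
    have := Real.pi_gt_three
    rw [hγ]
    linarith
  refine ⟨γ, hγ0, hγπ, ?_, ?_⟩
  · have := hRw 0 le_rfl zero_le_one
    rw [sub_zero, mul_one] at this
    linarith
  · have hint : ∫ α in (0 : ℝ)..1, α * Rw γ α ≤ ∫ α in (0 : ℝ)..1, S * (α - α ^ 2) := by
      apply intervalIntegral.integral_mono_on zero_le_one
      · have hc : Continuous (Rw γ) := H385.PerChi.Rw_cont γ hγ0 hγπ
        exact (continuous_id.mul hc).intervalIntegrable _ _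
      · exact (by fun_prop : Continuous fun α : ℝ => S * (α - α ^ 2)).intervalIntegrable _ _
      · intro α hα
        have := mul_le_mul_of_nonneg_left (hRw α hα.1 hα.2) hα.1
        calc α * Rw γ α ≤ α * (S * (1 - α)) := this
          _ = S * (α - α ^ 2) := by ring
    have hval : ∫ α in (0 : ℝ)..1, S * (α - α ^ 2) = S / 6 := by
      have e0 : ∫ x in (0 : ℝ)..1, (x - x ^ 2) = (∫ x in (0 : ℝ)..1, x) - ∫ x in (0 : ℝ)..1, x ^ 2 :=
        intervalIntegral.integral_sub (continuous_id.intervalIntegrable _ _)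
          ((continuous_pow 2).intervalIntegrable _ _)
      have e1 : ∫ x in (0 : ℝ)..1, x = 1 / 2 := by
        rw [integral_id]
        norm_num
      have e2 : ∫ x in (0 : ℝ)..1, x ^ 2 = 1 / 3 := by
        rw [integral_pow]
        norm_num
      rw [intervalIntegral.integral_const_mul, e0, e1, e2]
      ring
    linarith

section many

variable {f : ℕ → ℕ} (ψ : ∀ i, DirichletCharacter ℂ (f i)) (α : ℕ → ℝ)

/-- **the number of the distinct zeros of the product** -/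
theorem union_core [∀ i, NeZero (f i)] (hψ : ∀ i, (ψ i).IsPrimitive) (hα : ∀ i, 0 ≤ α i) (k : ℕ) (hk : 1 ≤ k)
    (hne : ∀ i < k, ∀ j < k, i ≠ j → quo (ψ i) (ψ j) ≠ 1 ∨ α j - α i ≠ 0)
    (M : ℕ) (hsq : Squarefree M) (hM : ∀ q : ℕ, Nat.Coprime q M → ∀ i < k, Nat.Coprime q (f i))
    (ε : ℝ) (hε : 0 < ε) :
    ∃ K η X0 : ℝ, 1 ≤ K ∧ 0 < η ∧ 1 ≤ X0 ∧
    ∀ (X Y : ℕ) (T : ℝ), X0 ≤ X → K * X ≤ Y → (Y : ℝ) ≤ (X : ℝ) ^ (1 + η) →
      (Real.log X) ^ 2 ≤ T → T ≤ (X : ℝ) ^ η →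
      (6 / (3 * k + 4) - ε) * primFamM M X Y (fun q χ => (NN (P ψ α k q χ) T (2 * T) : ℝ)) ≤
        primFamM M X Y (fun q χ => (Nd (P ψ α k q χ) T (2 * T) : ℝ)) := by
  have hk1 : (1 : ℝ) ≤ k := by exact_mod_cast hk
  obtain ⟨a, ha⟩ : ∃ a : ℝ, a = k / 2 + 2 / 3 := ⟨_, rfl⟩
  have ha1 : 1 ≤ a := by rw [ha]; linarith
  obtain ⟨θ, hθ⟩ : ∃ θ : ℝ, θ = min 1 (ε / (6 * a)) := ⟨_, rfl⟩
  have hθ0 : 0 < θ := by rw [hθ]; exact lt_min one_pos (by positivity)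
  have hθ1 : θ ≤ 1 := by rw [hθ]; exact min_le_left _ _
  have hθ2 : θ * a ≤ ε / 6 := by
    have h1 : θ ≤ ε / (6 * a) := by rw [hθ]; exact min_le_right _ _
    rw [le_div_iff₀ (by positivity)] at h1
    linarith
  obtain ⟨γ, hγ0, hγπ, hR, hJ⟩ := window θ hθ0 hθ1
  have hR0 : 0 ≤ Rw γ 0 := Rw_nonneg γ hγ0 hγπ 0
  obtain ⟨J, hJd⟩ : ∃ J, J = ∫ α in (0 : ℝ)..1, α * Rw γ α := ⟨_, rfl⟩
  have hJ0 : 0 ≤ J := by
    rw [hJd]
    exact intervalIntegral.integral_nonneg zero_le_one (fun α hα => mul_nonneg hα.1 (Rw_nonneg γ hγ0 hγπ α))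
  rw [← hJd] at hJ
  obtain ⟨β, hβ⟩ : ∃ β : ℝ, β = 2 / (1 + θ) := ⟨_, rfl⟩
  have hβ0 : 0 < β := by rw [hβ]; positivity
  have hβ2 : β < 2 := by
    rw [hβ, div_lt_iff₀ (by positivity)]
    linarith
  obtain ⟨A, hA, hF⟩ := P_TwD ψ α hψ hα k hk M hM
  obtain ⟨C0, hS⟩ := selb_P ψ α k hk hne
  have hH := HYM_scaleK k hk M (cP ψ α k) (cP' ψ α k) (cP_eq ψ α k hk) γ β _
    (HYM_stage1 M hsq k hk1 (cP' ψ α k) (cP'_le ψ α k hk) C0 hS γ β hγ0 hγπ hβ0 hβ2)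
  rw [← hJd] at hH
  obtain ⟨lam, hlam⟩ : ∃ lam : ℝ, lam = a + ε := ⟨_, rfl⟩
  have hlam1 : 1 ≤ lam := by rw [hlam]; linarith
  obtain ⟨K, η, X0, hK, hη, hX0, h⟩ := final_lam lam hlam1 k A hk1 hA M (cP ψ α k) (P ψ α k) hF γ β
    (k * (2 * β * J)) hγ0 hγπ hβ0 (by positivity) hR0 hH (ε / 2) (by positivity)
  refine ⟨K, η, X0, hK, hη, hX0, ?_⟩
  intro X Y T a1 a2 a3 a4 a5
  have b := h X Y T a1 a2 a3 a4 a5
  obtain ⟨SN, hSN⟩ : ∃ x, x = primFamM M X Y (fun q χ => (NN (P ψ α k q χ) T (2 * T) : ℝ)) := ⟨_, rfl⟩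
  obtain ⟨SD, hSD⟩ : ∃ x, x = primFamM M X Y (fun q χ => (Nd (P ψ α k q χ) T (2 * T) : ℝ)) := ⟨_, rfl⟩
  have hSN0 : 0 ≤ SN := by
    rw [hSN]
    exact primFamM_nonneg _ _ _ _ (fun _ _ => Nat.cast_nonneg _)
  have l1 := primFamM_lin M X Y (2 * lam) (lam ^ 2) (fun q χ => (NN (P ψ α k q χ) T (2 * T) : ℝ))
    (fun q χ => (Nd (P ψ α k q χ) T (2 * T) : ℝ))
  rw [l1, ← hSN, ← hSD] at b
  rw [← hSN, ← hSD]
  -- the constant
  have hc : (k : ℝ) * Rw γ 0 / β + k * (2 * β * J) / k + ε / 2 ≤ lam := by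
    have e1 : (k : ℝ) * (2 * β * J) / k = 2 * β * J := by field_simp
    have e2 : (k : ℝ) * Rw γ 0 / β ≤ k * (1 + θ) ^ 2 / 2 := by
      rw [hβ, div_div_eq_mul_div]
      apply div_le_div_of_nonneg_right _ (by norm_num)
      calc (k : ℝ) * Rw γ 0 * (1 + θ) ≤ k * (1 + θ) * (1 + θ) := by
            apply mul_le_mul_of_nonneg_right _ (by positivity)
            exact mul_le_mul_of_nonneg_left hR (by linarith)
        _ = _ := by ring
    have e3 : 2 * β * J ≤ 2 / 3 * (1 + θ) ^ 2 := by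
      have h1 : β * J ≤ 2 * J := mul_le_mul_of_nonneg_right hβ2.le hJ0
      have h2 : (1 + θ) ≤ (1 + θ) ^ 2 := by nlinarith
      linarith
    have e4 : (1 + θ) ^ 2 ≤ 1 + 3 * θ := by nlinarith
    have e5 : (1 + θ) ^ 2 * a ≤ (1 + 3 * θ) * a := mul_le_mul_of_nonneg_right e4 (by linarith)
    have e6 : k * (1 + θ) ^ 2 / 2 + 2 / 3 * (1 + θ) ^ 2 = (1 + θ) ^ 2 * a := by rw [ha]; ring
    rw [e1, hlam]
    nlinarith
  have hb2 : 2 * lam * SN - lam ^ 2 * SD ≤ lam * SN := b.trans (mul_le_mul_of_nonneg_right hc hSN0)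
  have hb3 : SN ≤ lam * SD := by
    have h1 : lam * SN ≤ lam * (lam * SD) := by nlinarith
    exact le_of_mul_le_mul_left h1 (by linarith)
  -- the conclusion
  have hSD' : SN / lam ≤ SD := by
    rw [div_le_iff₀ (by linarith)]
    linarith
  refine le_trans ?_ hSD'
  rw [div_eq_mul_inv SN lam, mul_comm SN]
  apply mul_le_mul_of_nonneg_right _ hSN0
  have h6 : (6 : ℝ) / (3 * k + 4) = 1 / a := by
    rw [ha]
    field_simp
    ring
  rw [h6, hlam, sub_le_iff_le_add]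
  have h7 : 1 / a - (a + ε)⁻¹ ≤ ε := by
    have h8 : 1 / a - (a + ε)⁻¹ = ε / (a * (a + ε)) := by
      have : a ≠ 0 := by linarith
      have : a + ε ≠ 0 := by linarith
      field_simp
      ring
    rw [h8]
    apply div_le_self hε.le
    nlinarith
  linarith

end many

end Pool.Agent.T2H62.MQ
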