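import Pool.Agent.T2H62.MQ.E

/-!
# The distinct zeros of `k` L-functions: the final form
-/

open Complex Filter Topology Set MeasureTheory
open H370 (zset mult NN Nd Ns)

set_option maxHeartbeats 4000000

namespace Pool.Agent.T2H62.MQ

open H385
open Pool.Agent.R321.RG (fam_mul fam_congr fam_mono)
open Pool.Agent.T2H25.ZR (sh ni quo Lt)

/-- every member of a family has a zero in the range -/
theorem NN_bigD (d : ℝ) (hd : 1 ≤ d) (M : ℕ) {A : ℝ} (hA : 1 ≤ A) (c : ℕ → ℂ)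
    (F : (q : ℕ) → DirichletCharacter ℂ q → ℂ → ℂ) (hF : TwD d A M c F) :
    ∃ X1 : ℝ, 1 ≤ X1 ∧ ∀ (X q : ℕ) (χ : DirichletCharacter ℂ q) (T : ℝ), X1 ≤ X →
    X < q → (q : ℝ) ≤ (X : ℝ) ^ 2 → Nat.Coprime q M → χ.IsPrimitive →
    (Real.log X) ^ 2 ≤ T → T ≤ X → (1 : ℝ) ≤ (NN (F q χ) T (2 * T) : ℝ) := by
  obtain ⟨C, hC, hN⟩ := N_lower_D d A hd hA
  refine ⟨Real.exp (12 + 40 * C + 8), Real.one_le_exp (by positivity), ?_⟩
  intro X q χ T hX hq hq2 hqc hχ hT1 hT2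
  have hXpos : (0 : ℝ) < X := lt_of_lt_of_le (Real.exp_pos _) hX
  set L : ℝ := Real.log X with hL
  have hLL : 12 + 40 * C + 8 ≤ L := by
    rw [hL, Real.le_log_iff_exp_le hXpos]; exact hX
  have hXe : (X : ℝ) = Real.exp L := by rw [hL, Real.exp_log hXpos]
  have hX1 : 1 ≤ X := by exact_mod_cast hXpos
  obtain ⟨p1, p2, _, _, _, p6⟩ := param_ok 1 L T 1 one_pos le_rfl (by linarith)
    (by rw [div_one]; linarith) hT1 (by rw [one_mul, ← hXe]; exact hT2)
  have hq0 : (0 : ℝ) < q := by exact_mod_cast (show 0 < q by omega)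
  have hq1 : (1 : ℝ) ≤ q := by exact_mod_cast (show 1 ≤ q by omega)
  have hqX : (X : ℝ) ≤ q := by exact_mod_cast hq.le
  have hL0 : 0 ≤ L := by linarith
  have hT0 : 1 ≤ T := by linarith
  have hTpos : 0 < T := by linarith
  have hl := hN q (F q χ) _ hq1 (hF.good q χ (by omega) hqc hχ) T L p1 p2
  have hlog1 : L ≤ Real.log (q * T) := by
    rw [hL]
    refine Real.log_le_log hXpos ?_
    calc (X : ℝ) = X * 1 := (mul_one _).symm
      _ ≤ q * T := mul_le_mul hqX hT0 zero_le_one hq0.le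
  have hlog2 : Real.log (q * T) ≤ 3 * L := by
    have e1 : (q : ℝ) * T ≤ (X : ℝ) ^ 3 := by
      calc (q : ℝ) * T ≤ (X : ℝ) ^ 2 * X := mul_le_mul hq2 hT2 hTpos.le (by positivity)
        _ = (X : ℝ) ^ 3 := by ring
    calc Real.log (q * T) ≤ Real.log ((X : ℝ) ^ 3) := Real.log_le_log (by positivity) e1
      _ = 3 * L := by rw [Real.log_pow, hL]; norm_num
  have a2 : L * Real.log (q * T) ≤ 3 * T := by
    have : L * Real.log (q * T) ≤ L * (3 * L) := mul_le_mul_of_nonneg_left hlog2 (by linarith)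
    linarith [show L * (3 * L) = 3 * L ^ 2 by ring]
  have a3 : T * Real.log (q * T) ^ 2 * Real.exp (-L ^ 2 / 2) ≤ T := by
    have b1 : Real.log (q * T) ^ 2 ≤ (3 * L) ^ 2 := pow_le_pow_left₀ (by linarith) hlog2 2
    have b2 : Real.log (q * T) ^ 2 * Real.exp (-L ^ 2 / 2) ≤ 1 := by
      refine le_trans (mul_le_mul_of_nonneg_right b1 (Real.exp_pos _).le) ?_
      rw [show (3 * L) ^ 2 = 9 * L ^ 2 by ring]; exact p6
    calc _ = T * (Real.log (q * T) ^ 2 * Real.exp (-L ^ 2 / 2)) := by ring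
      _ ≤ T * 1 := mul_le_mul_of_nonneg_left b2 hTpos.le
      _ = T := mul_one T
  have a4 : C * (T + L * Real.log (q * T) + T * Real.log (q * T) ^ 2 * Real.exp (-L ^ 2 / 2)) ≤
      C * (5 * T) := mul_le_mul_of_nonneg_left (by linarith) hC.le
  have a1 : T * (L / 8) ≤ T / (2 * Real.pi) * (d * Real.log (q * T)) := by
    have hpi := Real.pi_pos
    have hpi4 := Real.pi_lt_four
    have e1 : T / (2 * Real.pi) * (d * Real.log (q * T)) =
        T * (d * Real.log (q * T) / (2 * Real.pi)) := by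
      field_simp
    rw [e1]
    refine mul_le_mul_of_nonneg_left ?_ hTpos.le
    have e2 : L ≤ d * Real.log (q * T) := by
      calc L ≤ Real.log (q * T) := hlog1
        _ = 1 * Real.log (q * T) := (one_mul _).symm
        _ ≤ d * Real.log (q * T) := mul_le_mul_of_nonneg_right hd (hL0.trans hlog1)
    calc L / 8 ≤ L / (2 * Real.pi) :=
          div_le_div_of_nonneg_left hL0 (by positivity) (by linarith)
      _ ≤ d * Real.log (q * T) / (2 * Real.pi) := div_le_div_of_nonneg_right e2 (by positivity)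
  have a5 : 1 ≤ T * (L / 8 - 5 * C) := by
    have : 1 ≤ L / 8 - 5 * C := by linarith
    exact one_le_mul_of_one_le_of_one_le hT0 this
  have a6 : T * (L / 8 - 5 * C) = T * (L / 8) - C * (5 * T) := by ring
  linarith

section many

variable {f : ℕ → ℕ} (ψ : ∀ i, DirichletCharacter ℂ (f i)) (α : ℕ → ℝ)

/-- **the number of the distinct zeros of `k` L-functions of the family** -/
theorem many [∀ i, NeZero (f i)] (hψ : ∀ i, (ψ i).IsPrimitive) (hα : ∀ i, 0 ≤ α i) (k : ℕ) (hk : 1 ≤ k)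
    (hne : ∀ i < k, ∀ j < k, i ≠ j → quo (ψ i) (ψ j) ≠ 1 ∨ α j - α i ≠ 0)
    (M : ℕ) (hsq : Squarefree M) (hM : ∀ q : ℕ, Nat.Coprime q M → ∀ i < k, Nat.Coprime q (f i))
    (ε : ℝ) (hε : 0 < ε) :
    ∃ K η X0 : ℝ, 1 ≤ K ∧ 0 < η ∧ 1 ≤ X0 ∧
    ∀ (X Y : ℕ) (T : ℝ), X0 ≤ X → K * X ≤ Y → (Y : ℝ) ≤ (X : ℝ) ^ (1 + η) →
      (Real.log X) ^ 2 ≤ T → T ≤ (X : ℝ) ^ η →
      0 < primFamM M X Y (fun q χ => ((∑ i ∈ Finset.range k, NN (G ψ α i q χ) T (2 * T) : ℕ) : ℝ)) ∧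
      (∀ q : ℕ, X < q → Nat.Coprime q M → ∀ χ : DirichletCharacter ℂ q, χ.IsPrimitive → ∀ i < k,
        (zset (G ψ α i q χ) T (2 * T)).Finite) ∧
      (6 / (3 * k + 4) - ε) *
          primFamM M X Y (fun q χ => ((∑ i ∈ Finset.range k, NN (G ψ α i q χ) T (2 * T) : ℕ) : ℝ)) ≤
        primFamM M X Y (fun q χ =>
          ((⋃ i ∈ Finset.range k, zset (G ψ α i q χ) T (2 * T)).ncard : ℝ)) := by
  have hk1 : (1 : ℝ) ≤ k := by exact_mod_cast hk
  obtain ⟨K, η, X0, hK, hη, hX0, h⟩ := union_core ψ α hψ hα k hk hne M hsq hM ε hε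
  obtain ⟨A, hA, hF⟩ := P_TwD ψ α hψ hα k hk M hM
  obtain ⟨X1, hX1, hpos⟩ := NN_bigD k hk1 M hA (cP ψ α k) (P ψ α k) hF
  have hg := fun i => G_good ψ α hψ hα i
  choose B hB hg using hg
  obtain ⟨C4, hC4, hmass⟩ := prim_mass_M M hsq
  have hc0 := cM_pos M hsq
  refine ⟨max K (Real.exp ((C4 + 1) / cM M)), min η 1, max X0 (max X1 (Real.exp 1)),
    le_max_of_le_left hK, lt_min hη one_pos, le_max_of_le_left hX0, ?_⟩
  intro X Y T hX hKX hY hT1 hT2
  have hXX0 : X0 ≤ X := (le_max_left _ _).trans hX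
  have hXX1 : X1 ≤ X := ((le_max_left _ _).trans (le_max_right _ _)).trans hX
  have hXe : Real.exp 1 ≤ X := ((le_max_right _ _).trans (le_max_right _ _)).trans hX
  have hX1r : (1 : ℝ) ≤ X := hX0.trans hXX0
  have hXpos : (0 : ℝ) < X := by linarith
  have hX1n : 1 ≤ X := by exact_mod_cast hX1r
  have hlog1 : 1 ≤ Real.log X := by
    rw [Real.le_log_iff_exp_le hXpos]; exact hXe
  have hT0 : 1 ≤ T := (one_le_pow₀ hlog1).trans hT1
  have hKX1 : K * X ≤ Y := (mul_le_mul_of_nonneg_right (le_max_left _ _) hXpos.le).trans hKX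
  have hKX2 : Real.exp ((C4 + 1) / cM M) * X ≤ Y :=
    (mul_le_mul_of_nonneg_right (le_max_right _ _) hXpos.le).trans hKX
  have hXYr : (X : ℝ) ≤ Y := by
    calc (X : ℝ) = 1 * X := (one_mul _).symm
      _ ≤ K * X := mul_le_mul_of_nonneg_right hK hXpos.le
      _ ≤ Y := hKX1
  have hXY : X ≤ Y := by exact_mod_cast hXYr
  have hY1 : (Y : ℝ) ≤ (X : ℝ) ^ (1 + η) :=
    hY.trans (Real.rpow_le_rpow_of_exponent_le hX1r (by linarith [min_le_left η 1]))
  have hY2 : (Y : ℝ) ≤ (X : ℝ) ^ 2 := by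
    refine (hY.trans (Real.rpow_le_rpow_of_exponent_le hX1r
      (show 1 + min η 1 ≤ ((2 : ℕ) : ℝ) by push_cast; linarith [min_le_right η 1]))).trans
      (le_of_eq ?_)
    rw [Real.rpow_natCast]
  have hTη : T ≤ (X : ℝ) ^ η :=
    hT2.trans (Real.rpow_le_rpow_of_exponent_le hX1r (min_le_left η 1))
  have hTX : T ≤ X := by
    refine (hT2.trans (Real.rpow_le_rpow_of_exponent_le hX1r (min_le_right η 1))).trans
      (le_of_eq (Real.rpow_one _))
  have hmain := h X Y T hXX0 hKX1 hY1 hT1 hTη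
  have hgi : ∀ q : ℕ, X < q → Nat.Coprime q M → ∀ χ : DirichletCharacter ℂ q, χ.IsPrimitive →
      ∀ i < k, GoodD 1 (B i) q (G ψ α i q χ)
        (fun n => χ (n : ZMod q) * uc ψ α i n * (ArithmeticFunction.vonMangoldt n : ℂ)) :=
    fun q hq hc χ hχ i hi => hg i q χ (by omega) (hM q hc i hi) hχ
  have hNN : primFamM M X Y (fun q χ => (NN (P ψ α k q χ) T (2 * T) : ℝ)) =
      primFamM M X Y (fun q χ => ((∑ i ∈ Finset.range k, NN (G ψ α i q χ) T (2 * T) : ℕ) : ℝ)) := by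
    refine fam_congr M X Y _ _ fun q hq hq2 hc χ hχ => ?_
    have hq1 : (1 : ℝ) ≤ q := by exact_mod_cast (show 1 ≤ q by omega)
    have := NN_prod k (fun i => G ψ α i q χ) _ q hq1 B hB (hgi q hq hc χ hχ) T (2 * T) hT0
    show ((NN (fun s => ∏ i ∈ Finset.range k, G ψ α i q χ s) T (2 * T) : ℕ) : ℝ) = _
    rw [this]
  have hNd : primFamM M X Y (fun q χ => (Nd (P ψ α k q χ) T (2 * T) : ℝ)) =
      primFamM M X Y (fun q χ =>
        ((⋃ i ∈ Finset.range k, zset (G ψ α i q χ) T (2 * T)).ncard : ℝ)) := by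
    refine fam_congr M X Y _ _ fun q hq hq2 hc χ hχ => ?_
    have := zset_prod k (fun i => G ψ α i q χ) T (2 * T)
    show (((zset (fun s => ∏ i ∈ Finset.range k, G ψ α i q χ s) T (2 * T)).ncard : ℕ) : ℝ) = _
    rw [this]
  have hW1 : 1 ≤ primFamM M X Y (fun _ _ => 1) := by
    have h1 := (abs_le.mp (hmass X Y hX1n hXY)).1
    have h2 : (C4 + 1) / cM M ≤ Real.log ((Y : ℝ) / X) := by
      have hYpos : (0 : ℝ) < Y := lt_of_lt_of_le hXpos hXYr
      rw [Real.le_log_iff_exp_le (div_pos hYpos hXpos), le_div_iff₀ hXpos]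
      exact hKX2
    rw [div_le_iff₀ hc0] at h2
    linarith
  have hNpos : 0 < primFamM M X Y (fun q χ => (NN (P ψ α k q χ) T (2 * T) : ℝ)) := by
    refine lt_of_lt_of_le (lt_of_lt_of_le one_pos hW1) ?_
    refine fam_mono M X Y _ _ fun q hq hq2 hc χ hχ => ?_
    have hqY : (q : ℝ) ≤ Y := by exact_mod_cast hq2
    exact hpos X q χ T hXX1 hq (hqY.trans hY2) hc hχ hT1 hTX
  rw [hNN] at hmain hNpos
  rw [hNd] at hmain
  refine ⟨hNpos, fun q hq hc χ hχ i hi => ?_, hmain⟩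
  have hq1 : (1 : ℝ) ≤ q := by exact_mod_cast (show 1 ≤ q by omega)
  exact zset_finite_D (hB i) hq1 (hgi q hq hc χ hχ i hi) T (2 * T) hT0

end many

end Pool.Agent.T2H62.MQ
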