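import Pool.Agent.T2H62.MQ.B2
import Pool.Agent.T2H62.MQ.F

/-!
# The number of the distinct zeros of `k` L-functions: two levels
-/

open Complex Filter Topology Set MeasureTheory
open H370 (zset mult NN Nd Ns)

set_option maxHeartbeats 4000000

namespace Pool.Agent.T2H62.MQ

open H385
open Pool.Agent.R321.RG (fam_mul fam_congr fam_mono)
open Pool.Agent.T2H25.ZR (sh ni quo Lt)

section many

variable {f : ℕ → ℕ} (ψ : ∀ i, DirichletCharacter ℂ (f i)) (α : ℕ → ℝ)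

/-- **the number of the distinct zeros of the product** -/
theorem union_two [∀ i, NeZero (f i)] (hψ : ∀ i, (ψ i).IsPrimitive) (hα : ∀ i, 0 ≤ α i) (k : ℕ) (hk : 1 ≤ k)
    (r : ℕ) (hr : 1 ≤ r)
    (hne : ∀ i < k, ∀ j < k, i ≠ j → quo (ψ i) (ψ j) ≠ 1 ∨ α j - α i ≠ 0)
    (M : ℕ) (hsq : Squarefree M) (hM : ∀ q : ℕ, Nat.Coprime q M → ∀ i < k, Nat.Coprime q (f i))
    (ε : ℝ) (hε : 0 < ε) :
    ∃ K η X0 : ℝ, 1 ≤ K ∧ 0 < η ∧ 1 ≤ X0 ∧
    ∀ (X Y : ℕ) (T : ℝ), X0 ≤ X → K * X ≤ Y → (Y : ℝ) ≤ (X : ℝ) ^ (1 + η) →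
      (Real.log X) ^ 2 ≤ T → T ≤ (X : ℝ) ^ η →
      ((12 * r + 2 - 3 * k) / (6 * r * (r + 1)) - ε) *
          primFamM M X Y (fun q χ => (NN (P ψ α k q χ) T (2 * T) : ℝ)) ≤
        primFamM M X Y (fun q χ => (Nd (P ψ α k q χ) T (2 * T) : ℝ)) := by
  have hk1 : (1 : ℝ) ≤ k := by exact_mod_cast hk
  have hr1 : (1 : ℝ) ≤ r := by exact_mod_cast hr
  obtain ⟨a, ha⟩ : ∃ a : ℝ, a = k / 2 + 2 / 3 := ⟨_, rfl⟩
  have ha1 : 1 ≤ a := by rw [ha]; linarith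
  obtain ⟨θ, hθ⟩ : ∃ θ : ℝ, θ = min 1 (ε / (6 * a)) := ⟨_, rfl⟩
  have hθ0 : 0 < θ := by rw [hθ]; exact lt_min one_pos (by positivity)
  have hθ1 : θ ≤ 1 := by rw [hθ]; exact min_le_left _ _
  have hθ2 : θ * a ≤ ε / 6 := by
    have h1 : θ ≤ ε / (6 * a) := by rw [hθ]; exact min_le_right _ _
    rw [le_div_iff₀ (by positivity)] at h1
    linarith
  obtain ⟨γ, hγ0, hγπ, hR, hJ⟩ := window θ hθ0 hθ1
  have hR0 : 0 ≤ Rw γ 0 := Rw_nonneg γ hγ0 hγπ 0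
  obtain ⟨J, hJd⟩ : ∃ J, J = ∫ α in (0 : ℝ)..1, α * Rw γ α := ⟨_, rfl⟩
  have hJ0 : 0 ≤ J := by
    rw [hJd]
    exact intervalIntegral.integral_nonneg zero_le_one (fun α hα => mul_nonneg hα.1 (Rw_nonneg γ hγ0 hγπ α))
  rw [← hJd] at hJ
  obtain ⟨β, hβ⟩ : ∃ β : ℝ, β = 2 / (1 + θ) := ⟨_, rfl⟩
  have hβ0 : 0 < β := by rw [hβ]; positivity
  have hβ2 : β < 2 := by
    rw [hβ, div_lt_iff₀ (by positivity)]
    linarith
  obtain ⟨A, hA, hF⟩ := P_TwD ψ α hψ hα k hk M hM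
  obtain ⟨C0, hS⟩ := selb_P ψ α k hk hne
  have hH := HYM_scaleK k hk M (cP ψ α k) (cP' ψ α k) (cP_eq ψ α k hk) γ β _
    (HYM_stage1 M hsq k hk1 (cP' ψ α k) (cP'_le ψ α k hk) C0 hS γ β hγ0 hγπ hβ0 hβ2)
  rw [← hJd] at hH
  obtain ⟨K, η, X0, hK, hη, hX0, h⟩ := final_two r hr k A hk1 hA M (cP ψ α k) (P ψ α k) hF γ β
    (k * (2 * β * J)) hγ0 hγπ hβ0 (by positivity) hR0 hH (ε / 2) (by positivity)
  refine ⟨K, η, X0, hK, hη, hX0, ?_⟩
  intro X Y T a1 a2 a3 a4 a5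
  have b := h X Y T a1 a2 a3 a4 a5
  obtain ⟨SN, hSN⟩ : ∃ x, x = primFamM M X Y (fun q χ => (NN (P ψ α k q χ) T (2 * T) : ℝ)) := ⟨_, rfl⟩
  obtain ⟨SD, hSD⟩ : ∃ x, x = primFamM M X Y (fun q χ => (Nd (P ψ α k q χ) T (2 * T) : ℝ)) := ⟨_, rfl⟩
  have hSN0 : 0 ≤ SN := by
    rw [hSN]
    exact primFamM_nonneg _ _ _ _ (fun _ _ => Nat.cast_nonneg _)
  have l1 := primFamM_lin M X Y (2 * (r : ℝ) + 1) (r * (r + 1)) (fun q χ => (NN (P ψ α k q χ) T (2 * T) : ℝ))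
    (fun q χ => (Nd (P ψ α k q χ) T (2 * T) : ℝ))
  rw [l1, ← hSN, ← hSD] at b
  rw [← hSN, ← hSD]
  -- the constant
  have hc : (k : ℝ) * Rw γ 0 / β + k * (2 * β * J) / k + ε / 2 ≤ a + ε := by
    have e1 : (k : ℝ) * (2 * β * J) / k = 2 * β * J := by field_simp
    have e2 : (k : ℝ) * Rw γ 0 / β ≤ k * (1 + θ) ^ 2 / 2 := by
      rw [hβ, div_div_eq_mul_div]
      apply div_le_div_of_nonneg_right _ (by norm_num)
      calc (k : ℝ) * Rw γ 0 * (1 + θ) ≤ k * (1 + θ) * (1 + θ) := by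
            apply mul_le_mul_of_nonneg_right _ (by positivity)
            exact mul_le_mul_of_nonneg_left hR (by linarith)
        _ = _ := by ring
    have e3 : 2 * β * J ≤ 2 / 3 * (1 + θ) ^ 2 := by
      have h1 : β * J ≤ 2 * J := mul_le_mul_of_nonneg_right hβ2.le hJ0
      have h2 : (1 + θ) ≤ (1 + θ) ^ 2 := by nlinarith
      linarith
    have e4 : (1 + θ) ^ 2 ≤ 1 + 3 * θ := by nlinarith
    have e5 : (1 + θ) ^ 2 * a ≤ (1 + 3 * θ) * a := mul_le_mul_of_nonneg_right e4 (by linarith)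
    have e6 : k * (1 + θ) ^ 2 / 2 + 2 / 3 * (1 + θ) ^ 2 = (1 + θ) ^ 2 * a := by rw [ha]; ring
    rw [e1]
    nlinarith
  have hb2 : (2 * (r : ℝ) + 1) * SN - r * (r + 1) * SD ≤ (a + ε) * SN :=
    b.trans (mul_le_mul_of_nonneg_right hc hSN0)
  have hrr : 0 < (r : ℝ) * (r + 1) := by positivity
  have hrr1 : 1 ≤ (r : ℝ) * (r + 1) := by nlinarith
  have h1 : ((12 * r + 2 - 3 * k) / (6 * r * (r + 1)) : ℝ) * (r * (r + 1)) = 2 * r + 1 - a := by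
    rw [ha]
    field_simp
    ring
  have h2 : (r : ℝ) * (r + 1) * (((12 * r + 2 - 3 * k) / (6 * r * (r + 1)) - ε) * SN) ≤
      r * (r + 1) * SD := by
    have h3 : (r : ℝ) * (r + 1) * (((12 * r + 2 - 3 * k) / (6 * r * (r + 1)) - ε) * SN) =
        ((12 * r + 2 - 3 * k) / (6 * r * (r + 1)) * (r * (r + 1))) * SN -
          r * (r + 1) * (ε * SN) := by ring
    have h4 : 0 ≤ ε * SN := by positivity
    have h5 : 1 * (ε * SN) ≤ r * (r + 1) * (ε * SN) := mul_le_mul_of_nonneg_right hrr1 h4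
    rw [h3, h1]
    linarith
  exact le_of_mul_le_mul_left h2 hrr

/-- **the number of the distinct zeros of `k` L-functions of the family** -/
theorem many_two [∀ i, NeZero (f i)] (hψ : ∀ i, (ψ i).IsPrimitive) (hα : ∀ i, 0 ≤ α i) (k : ℕ) (hk : 1 ≤ k)
    (r : ℕ) (hr : 1 ≤ r)
    (hne : ∀ i < k, ∀ j < k, i ≠ j → quo (ψ i) (ψ j) ≠ 1 ∨ α j - α i ≠ 0)
    (M : ℕ) (hsq : Squarefree M) (hM : ∀ q : ℕ, Nat.Coprime q M → ∀ i < k, Nat.Coprime q (f i))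
    (ε : ℝ) (hε : 0 < ε) :
    ∃ K η X0 : ℝ, 1 ≤ K ∧ 0 < η ∧ 1 ≤ X0 ∧
    ∀ (X Y : ℕ) (T : ℝ), X0 ≤ X → K * X ≤ Y → (Y : ℝ) ≤ (X : ℝ) ^ (1 + η) →
      (Real.log X) ^ 2 ≤ T → T ≤ (X : ℝ) ^ η →
      0 < primFamM M X Y (fun q χ => ((∑ i ∈ Finset.range k, NN (G ψ α i q χ) T (2 * T) : ℕ) : ℝ)) ∧
      (∀ q : ℕ, X < q → Nat.Coprime q M → ∀ χ : DirichletCharacter ℂ q, χ.IsPrimitive → ∀ i < k,
        (zset (G ψ α i q χ) T (2 * T)).Finite) ∧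
      ((12 * r + 2 - 3 * k) / (6 * r * (r + 1)) - ε) *
          primFamM M X Y (fun q χ => ((∑ i ∈ Finset.range k, NN (G ψ α i q χ) T (2 * T) : ℕ) : ℝ)) ≤
        primFamM M X Y (fun q χ =>
          ((⋃ i ∈ Finset.range k, zset (G ψ α i q χ) T (2 * T)).ncard : ℝ)) := by
  have hk1 : (1 : ℝ) ≤ k := by exact_mod_cast hk
  obtain ⟨K, η, X0, hK, hη, hX0, h⟩ := union_two ψ α hψ hα k hk r hr hne M hsq hM ε hε
  obtain ⟨A, hA, hF⟩ := P_TwD ψ α hψ hα k hk M hM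
  obtain ⟨X1, hX1, hpos⟩ := NN_bigD k hk1 M hA (cP ψ α k) (P ψ α k) hF
  have hg := fun i => G_good ψ α hψ hα i
  choose B hB hg using hg
  obtain ⟨C4, hC4, hmass⟩ := prim_mass_M M hsq
  have hc0 := cM_pos M hsq
  refine ⟨max K (Real.exp ((C4 + 1) / cM M)), min η 1, max X0 (max X1 (Real.exp 1)),
    le_max_of_le_left hK, lt_min hη one_pos, le_max_of_le_left hX0, ?_⟩
  intro X Y T hX hKX hY hT1 hT2
  have hXX0 : X0 ≤ X := (le_max_left _ _).trans hX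
  have hXX1 : X1 ≤ X := ((le_max_left _ _).trans (le_max_right _ _)).trans hX
  have hXe : Real.exp 1 ≤ X := ((le_max_right _ _).trans (le_max_right _ _)).trans hX
  have hX1r : (1 : ℝ) ≤ X := hX0.trans hXX0
  have hXpos : (0 : ℝ) < X := by linarith
  have hX1n : 1 ≤ X := by exact_mod_cast hX1r
  have hlog1 : 1 ≤ Real.log X := by
    rw [Real.le_log_iff_exp_le hXpos]; exact hXe
  have hT0 : 1 ≤ T := (one_le_pow₀ hlog1).trans hT1
  have hKX1 : K * X ≤ Y := (mul_le_mul_of_nonneg_right (le_max_left _ _) hXpos.le).trans hKX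
  have hKX2 : Real.exp ((C4 + 1) / cM M) * X ≤ Y :=
    (mul_le_mul_of_nonneg_right (le_max_right _ _) hXpos.le).trans hKX
  have hXYr : (X : ℝ) ≤ Y := by
    calc (X : ℝ) = 1 * X := (one_mul _).symm
      _ ≤ K * X := mul_le_mul_of_nonneg_right hK hXpos.le
      _ ≤ Y := hKX1
  have hXY : X ≤ Y := by exact_mod_cast hXYr
  have hY1 : (Y : ℝ) ≤ (X : ℝ) ^ (1 + η) :=
    hY.trans (Real.rpow_le_rpow_of_exponent_le hX1r (by linarith [min_le_left η 1]))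
  have hY2 : (Y : ℝ) ≤ (X : ℝ) ^ 2 := by
    refine (hY.trans (Real.rpow_le_rpow_of_exponent_le hX1r
      (show 1 + min η 1 ≤ ((2 : ℕ) : ℝ) by push_cast; linarith [min_le_right η 1]))).trans
      (le_of_eq ?_)
    rw [Real.rpow_natCast]
  have hTη : T ≤ (X : ℝ) ^ η :=
    hT2.trans (Real.rpow_le_rpow_of_exponent_le hX1r (min_le_left η 1))
  have hTX : T ≤ X := by
    refine (hT2.trans (Real.rpow_le_rpow_of_exponent_le hX1r (min_le_right η 1))).trans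
      (le_of_eq (Real.rpow_one _))
  have hmain := h X Y T hXX0 hKX1 hY1 hT1 hTη
  have hgi : ∀ q : ℕ, X < q → Nat.Coprime q M → ∀ χ : DirichletCharacter ℂ q, χ.IsPrimitive →
      ∀ i < k, GoodD 1 (B i) q (G ψ α i q χ)
        (fun n => χ (n : ZMod q) * uc ψ α i n * (ArithmeticFunction.vonMangoldt n : ℂ)) :=
    fun q hq hc χ hχ i hi => hg i q χ (by omega) (hM q hc i hi) hχ
  have hNN : primFamM M X Y (fun q χ => (NN (P ψ α k q χ) T (2 * T) : ℝ)) =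
      primFamM M X Y (fun q χ => ((∑ i ∈ Finset.range k, NN (G ψ α i q χ) T (2 * T) : ℕ) : ℝ)) := by
    refine fam_congr M X Y _ _ fun q hq hq2 hc χ hχ => ?_
    have hq1 : (1 : ℝ) ≤ q := by exact_mod_cast (show 1 ≤ q by omega)
    have := NN_prod k (fun i => G ψ α i q χ) _ q hq1 B hB (hgi q hq hc χ hχ) T (2 * T) hT0
    show ((NN (fun s => ∏ i ∈ Finset.range k, G ψ α i q χ s) T (2 * T) : ℕ) : ℝ) = _
    rw [this]
  have hNd : primFamM M X Y (fun q χ => (Nd (P ψ α k q χ) T (2 * T) : ℝ)) =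
      primFamM M X Y (fun q χ =>
        ((⋃ i ∈ Finset.range k, zset (G ψ α i q χ) T (2 * T)).ncard : ℝ)) := by
    refine fam_congr M X Y _ _ fun q hq hq2 hc χ hχ => ?_
    have := zset_prod k (fun i => G ψ α i q χ) T (2 * T)
    show (((zset (fun s => ∏ i ∈ Finset.range k, G ψ α i q χ s) T (2 * T)).ncard : ℕ) : ℝ) = _
    rw [this]
  have hW1 : 1 ≤ primFamM M X Y (fun _ _ => 1) := by
    have h1 := (abs_le.mp (hmass X Y hX1n hXY)).1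
    have h2 : (C4 + 1) / cM M ≤ Real.log ((Y : ℝ) / X) := by
      have hYpos : (0 : ℝ) < Y := lt_of_lt_of_le hXpos hXYr
      rw [Real.le_log_iff_exp_le (div_pos hYpos hXpos), le_div_iff₀ hXpos]
      exact hKX2
    rw [div_le_iff₀ hc0] at h2
    linarith
  have hNpos : 0 < primFamM M X Y (fun q χ => (NN (P ψ α k q χ) T (2 * T) : ℝ)) := by
    refine lt_of_lt_of_le (lt_of_lt_of_le one_pos hW1) ?_
    refine fam_mono M X Y _ _ fun q hq hq2 hc χ hχ => ?_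
    have hqY : (q : ℝ) ≤ Y := by exact_mod_cast hq2
    exact hpos X q χ T hXX1 hq (hqY.trans hY2) hc hχ hT1 hTX
  rw [hNN] at hmain hNpos
  rw [hNd] at hmain
  refine ⟨hNpos, fun q hq hc χ hχ i hi => ?_, hmain⟩
  have hq1 : (1 : ℝ) ≤ q := by exact_mod_cast (show 1 ≤ q by omega)
  exact zset_finite_D (hB i) hq1 (hgi q hq hc χ hχ i hi) T (2 * T) hT0

end many

end Pool.Agent.T2H62.MQ
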